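import Pool.Agent.Shared.SelbergUpper

/-! A weighted form of Selberg's upper bound sieve. -/

namespace Pool.Agent.Lib.MP_028aa5_nt

open Finset Function Pool.Agent.Shared.SelbergUpper

lemma per_weight {D : ℕ} (hD : 0 < D) {u : ℕ → ℝ} (hu : Periodic u D) {M : ℝ} (hM : ∀ t, |u t| ≤ M)
    (I : Finset ℕ) (F : ℕ → ℝ) {Y R : ℝ}
    (hE : ∀ a < D, |∑ n ∈ I with n % D = a, F n - Y / D| ≤ R) :
    ∑ n ∈ I, F n * u n ≤ Y * ((∑ t ∈ range D, u t) / D) + D * (M * R) := by
  rw [← sum_fiberwise_of_maps_to (s := I) (t := range D) (g := fun n => n % D)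
    fun n _ => mem_range.2 (Nat.mod_lt _ hD)]
  have h1 : ∀ a ∈ range D, ∑ n ∈ I with n % D = a, F n * u n ≤ Y * (u a / D) + M * R := by
    intro a ha
    rw [sum_congr rfl (g := fun n => F n * u a) fun n hn => by
      rw [← (mem_filter.1 hn).2, hu.map_mod_nat], ← sum_mul]
    have h2 := mul_le_mul (hM a) (hE a (mem_range.1 ha)) (abs_nonneg _) ((abs_nonneg _).trans (hM a))
    rw [← abs_mul] at h2
    have h3 := (le_abs_self _).trans h2
    have : Y * (u a / D) = u a * (Y / D) := by ring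
    nlinarith
  refine (sum_le_sum h1).trans (le_of_eq ?_)
  rw [sum_add_distrib, ← mul_sum, ← sum_div, sum_const, card_range, nsmul_eq_mul]

theorem wsieve (P : Finset ℕ) (hP : ∀ p ∈ P, p.Prime) {z : ℝ} (hz : 1 ≤ z) (I : Finset ℕ)
    (F : ℕ → ℝ) (hF : ∀ n ∈ I, 0 ≤ F n) {Y R : ℝ} (hR : 0 ≤ R)
    (hE : ∀ S ⊆ P, ((∏ p ∈ S, p : ℕ) : ℝ) ≤ z * z → ∀ a < ∏ p ∈ S, p,
      |∑ n ∈ I with n % (∏ p ∈ S, p) = a, F n - Y / (∏ p ∈ S, p : ℕ)| ≤ R) :
    ∑ n ∈ I with ∀ p ∈ P, ¬p ∣ n, F n ≤ Y / G P (fun p => 1 / ((p : ℝ) - 1)) z + R * z ^ 6 := by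
  have p1 : ∀ p ∈ P, (1 : ℝ) ≤ p - 1 := fun p hp => by
    have : (2 : ℝ) ≤ p := by exact_mod_cast (hP p hp).two_le
    linarith
  set g : ℕ → ℝ := fun p => 1 / ((p : ℝ) - 1) with hg
  have g0 : ∀ p ∈ P, 0 ≤ g p := fun p hp => div_nonneg zero_le_one (by linarith [p1 p hp])
  have G1 := one_le_G g0 hz
  let η : ℕ → ℕ → ℝ := fun p t => if p ∣ t then -1 else g p
  have s1 : ∀ p ∈ P, ∀ x y : ℝ, ∑ t ∈ range p, (if p ∣ t then x else y) = x + (p - 1) * y := by
    intro p hp x y
    obtain ⟨r, rfl⟩ := Nat.exists_eq_succ_of_ne_zero (hP p hp).ne_zero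
    rw [sum_range_succ', if_pos (dvd_zero _), sum_congr rfl (g := fun _ => y) fun t ht =>
      if_neg (Nat.not_dvd_of_pos_of_lt t.succ_pos (by simpa using ht))]
    simp [add_comm]
  have m0 : ∀ p ∈ P, (p - 1) * g p = 1 := fun p hp => by
    have := p1 p hp
    simp only [hg]
    field_simp
  have m1 : ∀ p ∈ P, ∑ t ∈ range p, η p t = 0 := fun p hp => by
    simp only [η]
    rw [s1 p hp, m0 p hp, neg_add_cancel]
  have m2 : ∀ p ∈ P, ∑ t ∈ range p, η p t * η p t = p * g p := fun p hp => by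
    have : ∀ t, η p t * η p t = if p ∣ t then 1 else g p * g p := fun t => by
      simp only [η]
      split_ifs <;> simp
    simp only [this]
    rw [s1 p hp, ← mul_assoc, m0 p hp]
    linear_combination (-1 : ℝ) * m0 p hp
  have b1 : ∀ p ∈ P, ∀ t, |η p t| ≤ p := fun p hp t => by
    have h1 := p1 p hp
    have h2 : g p ≤ 1 := div_le_one_of_le₀ h1 (by linarith)
    simp only [η]
    split_ifs
    · rw [abs_neg, abs_one]; linarith
    · rw [abs_of_nonneg (g0 p hp)]; linarith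
  have sub : ∀ S ∈ Sm P z, S ⊆ P := fun S hS => mem_powerset.1 (mem_filter.1 hS).1
  have b2 : ∀ S ∈ Sm P z, ∀ t, |∏ p ∈ S, η p t| ≤ z := fun S hS t => by
    rw [abs_prod]
    exact (prod_le_prod (fun _ _ => abs_nonneg _) fun p hp => b1 p (sub S hS hp) t).trans
      (mem_filter.1 hS).2
  have key : ∀ S ∈ Sm P z, ∀ T ∈ Sm P z,
      ∑ t ∈ I, F t * ((∏ p ∈ S, η p t) * ∏ p ∈ T, η p t) ≤
      Y * (if S = T then ∏ p ∈ S, g p else 0) + R * z ^ 4 := fun S hS T hT => by
    have u : S ∪ T ⊆ P := union_subset (sub S hS) (sub T hT)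
    have e1 : ∀ t, (∏ p ∈ S, η p t) * ∏ p ∈ T, η p t =
        ∏ p ∈ S ∪ T, (if p ∈ S then η p t else 1) * if p ∈ T then η p t else 1 := fun t => by
      rw [prod_mul_distrib, prod_ite_mem, prod_ite_mem, union_inter_cancel_left,
        union_inter_cancel_right]
    have per : ∀ p ∈ S ∪ T, Periodic
        (fun t => (if p ∈ S then η p t else 1) * if p ∈ T then η p t else 1) p := fun p hp t => by
      simp only [η, Nat.dvd_add_self_right]
    have D0 : 0 < ∏ p ∈ S ∪ T, p := prod_pos fun p hp => (hP p (u hp)).pos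
    have D1 : ((∏ p ∈ S ∪ T, p : ℕ) : ℝ) ≤ z * z := by
      have : ∏ p ∈ S ∪ T, p ≤ (∏ p ∈ S, p) * ∏ p ∈ T, p := by
        rw [← prod_union_inter]
        exact Nat.le_mul_of_pos_right _ (prod_pos fun p hp =>
          (hP p (sub S hS (mem_inter.1 hp).1)).pos)
      refine (Nat.cast_le.2 this).trans ?_
      push_cast
      exact mul_le_mul (mem_filter.1 hS).2 (mem_filter.1 hT).2 (by positivity) (by linarith)
    have := per_weight D0 (periodic_prod _ per) (M := z * z) (fun t => by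
      rw [← e1, abs_mul]
      exact mul_le_mul (b2 S hS t) (b2 T hT t) (abs_nonneg _) (by linarith)) I F (hE _ u D1)
    rw [crt _ (fun p hp => hP p (u hp)) per] at this
    simp only [e1]
    refine this.trans (add_le_add (le_of_eq ?_) ?_)
    · congr 1
      split_ifs with h
      · subst h
        rw [union_self, div_eq_iff (by
          exact_mod_cast (prod_pos fun p hp => (hP p (sub S hS hp)).pos).ne'),
          Nat.cast_prod, ← prod_mul_distrib]
        refine prod_congr rfl fun p hp => ?_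
        simp only [if_pos hp, m2 p (sub S hS hp), mul_comm]
      · obtain ⟨p, hp⟩ : ∃ p, ¬ (p ∈ S ↔ p ∈ T) := not_forall.1 fun h' => h (Finset.ext h')
        have hp' : p ∈ S ∪ T := by rw [mem_union]; tauto
        rw [prod_eq_zero hp', zero_div]
        by_cases h1 : p ∈ S
        · simp only [if_pos h1, if_neg (show p ∉ T by tauto), mul_one, m1 p (u hp')]
        · simp only [if_neg h1, if_pos (show p ∈ T by tauto), one_mul, m1 p (u hp')]
    · refine (mul_le_mul_of_nonneg_right D1 (by positivity)).trans (le_of_eq (by ring))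
  have cnt : (#(Sm P z) : ℝ) ≤ z := by
    have := inj_sum (A := Sm P z) (fun S hS p hp => hP p (sub S hS hp)) (B := Icc 1 ⌊z⌋₊)
      (fun S hS => mem_Icc.2 ⟨prod_pos fun p hp => (hP p (sub S hS hp)).pos,
        Nat.le_floor (by simpa using (mem_filter.1 hS).2)⟩) (F := fun _ => 1) fun _ => zero_le_one
    simpa using this.trans (by simpa using Nat.floor_le (by linarith))
  have up : ∑ t ∈ I, F t * (∑ S ∈ Sm P z, ∏ p ∈ S, η p t) ^ 2 ≤ Y * G P g z + R * z ^ 6 := by
    simp only [sq (∑ S ∈ Sm P z, _), sum_mul_sum]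
    simp only [mul_sum (s := Sm P z)]
    rw [sum_comm]
    refine (sum_le_sum fun S hS => (sum_comm.trans_le (sum_le_sum (key S hS)))).trans ?_
    simp only [sum_add_distrib, ← mul_sum, sum_ite_eq, sum_const, nsmul_eq_mul]
    rw [sum_congr rfl fun S hS => if_pos hS]
    have := mul_le_mul cnt cnt (Nat.cast_nonneg _) (by linarith)
    have z4 : 0 ≤ R * z ^ 4 := by positivity
    unfold G
    nlinarith
  have low : (∑ n ∈ I with ∀ p ∈ P, ¬p ∣ n, F n) * G P g z ^ 2 ≤
      ∑ t ∈ I, F t * (∑ S ∈ Sm P z, ∏ p ∈ S, η p t) ^ 2 := by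
    rw [sum_mul]
    refine (le_of_eq (sum_congr rfl fun t ht => ?_)).trans
      (sum_le_sum_of_subset_of_nonneg (filter_subset _ _) fun t ht _ =>
        mul_nonneg (hF t ht) (sq_nonneg _))
    congr 2
    refine sum_congr rfl fun S hS => prod_congr rfl fun p hp => ?_
    simp only [η, if_neg ((mem_filter.1 ht).2 p (sub S hS hp))]
  have G2 : 0 < G P g z ^ 2 := by positivity
  refine le_of_mul_le_mul_right (low.trans (up.trans ?_)) G2
  have : Y / G P g z * G P g z ^ 2 = Y * G P g z := by field_simp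
  have z6 : 0 ≤ R * z ^ 6 := by positivity
  nlinarith [mul_le_mul_of_nonneg_left (one_le_pow₀ (n := 2) G1) z6]

lemma G_union (P E : Finset ℕ) (hd : Disjoint E P) (hE : ∀ p ∈ E, 0 < p) {w : ℕ → ℝ}
    (hw : ∀ p, 0 ≤ w p) {z : ℝ} (hz : 0 ≤ z) :
    G (E ∪ P) w z ≤ G P w z * ∏ p ∈ E, (1 + w p) := by
  induction E using Finset.induction_on with
  | empty => simp
  | insert p E hp ih =>
    have h1 := disjoint_insert_left.1 hd
    have p0 := hE p (mem_insert_self _ _)
    have p1 : (1 : ℝ) ≤ p := by exact_mod_cast p0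
    rw [insert_union, G_insert (by simp [hp, h1.1]) p0, prod_insert hp]
    have h2 := ih h1.2 fun r hr => hE r (mem_insert_of_mem hr)
    have h3 := G_mono (P := E ∪ P) (w := w) (fun r _ => hw r) (div_le_self hz p1)
    nlinarith [hw p, mul_le_mul_of_nonneg_left h3 (hw p), mul_le_mul_of_nonneg_left h2 (hw p)]

/-- upper bound for weighted sums over primes from equidistribution in classes prime to `q` -/
theorem sieve_q {q z : ℕ} (hq : q ≠ 0) (hz : 2 ≤ z) (I : Finset ℕ) (F : ℕ → ℝ)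
    (hF : ∀ n ∈ I, 0 ≤ F n) {Y R : ℝ} (hY : 0 ≤ Y) (hR : 0 ≤ R)
    (hE : ∀ D : ℕ, 0 < D → D ≤ z ^ 2 → D.Coprime q → ∀ a < D,
      |∑ n ∈ I with n % D = a, F n - Y / D| ≤ R) :
    ∑ n ∈ I with n.Prime ∧ z < n, F n ≤
      2 * Y * (∏ p ∈ q.primeFactors, (1 + 1 / (p : ℝ))) / Real.log z + R * z ^ 6 := by
  set A := (range (z + 1)).filter Nat.Prime with hA
  set P := A.filter fun p => ¬p ∣ q with hP
  have z1 : (1 : ℝ) < z := by exact_mod_cast hz
  have pr : ∀ p ∈ P, p.Prime := fun p hp => (mem_filter.1 (mem_filter.1 hp).1).2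
  have h1 := wsieve P pr z1.le I F hF (Y := Y) hR fun S hS h a ha =>
    hE _ (prod_pos fun p hp => (pr p (hS hp)).pos) (by rw [sq]; exact_mod_cast h)
      (Nat.Coprime.prod_left fun p hp =>
        (Nat.Prime.coprime_iff_not_dvd (pr p (hS hp))).2 (mem_filter.1 (hS hp)).2) a ha
  have h2 : ∑ n ∈ I with n.Prime ∧ z < n, F n ≤ ∑ n ∈ I with ∀ p ∈ P, ¬p ∣ n, F n := by
    refine sum_le_sum_of_subset_of_nonneg (monotone_filter_right _ fun n _ hn p hp h => ?_)
      fun n hn _ => hF n (mem_filter.1 hn).1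
    have := (Nat.prime_dvd_prime_iff_eq (pr p hp) hn.1).1 h
    have := mem_range.1 (mem_filter.1 (mem_filter.1 hp).1).1
    omega
  have h3 := log_le_G (P := A) z1.le fun p hp h =>
    mem_filter.2 ⟨mem_range.2 (Nat.lt_succ_of_le (by exact_mod_cast h)), hp⟩
  have h4 := G_union P (A.filter fun p => p ∣ q) (disjoint_filter_filter_not _ _ _)
    (fun p hp => (mem_filter.1 (mem_filter.1 hp).1).2.pos) (w := fun p => 1 / (p : ℝ))
    (fun p => by positivity) (z := z) (by positivity)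
  rw [hP, filter_union_filter_not_eq, ← hP] at h4
  have h5 : ∏ p ∈ A.filter (fun p => p ∣ q), (1 + 1 / (p : ℝ)) ≤
      ∏ p ∈ q.primeFactors, (1 + 1 / (p : ℝ)) :=
    prod_le_prod_of_subset_of_one_le (fun p hp => Nat.mem_primeFactors.2
      ⟨(mem_filter.1 (mem_filter.1 hp).1).2, (mem_filter.1 hp).2, hq⟩)
      (fun p _ => by positivity) fun p _ _ => le_add_of_nonneg_right (by positivity)
  have h6 : G P (fun p => 1 / (p : ℝ)) z ≤ G P (fun p => 1 / ((p : ℝ) - 1)) z :=
    sum_le_sum fun S hS => prod_le_prod (fun p _ => by positivity) fun p hp => by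
      have : (2 : ℝ) ≤ p := by exact_mod_cast (pr p (mem_powerset.1 (mem_filter.1 hS).1 hp)).two_le
      exact one_div_le_one_div_of_le (by linarith) (by linarith)
  have h7 := one_le_G (P := P) (w := fun p => 1 / (p : ℝ)) (fun p _ => by positivity) z1.le
  refine h2.trans (h1.trans (add_le_add_left ?_ _))
  rw [div_le_div_iff₀ (by linarith) (Real.log_pos z1)]
  have h8 := mul_le_mul h6 h5 (prod_nonneg fun p _ => by positivity) (by linarith)
  nlinarith [mul_le_mul_of_nonneg_left (h3.trans (mul_le_mul_of_nonneg_left (h4.trans h8)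
    zero_le_two)) hY]

end Pool.Agent.Lib.MP_028aa5_nt
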