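import Pool.Agent.Lib.MP_028aa5_nt.Tools
import Pool.Agent.Lib.MP_028aa5_nt.Sieve

/-! Primes with `w^k γ` in a short arc: minor and major arc estimates. -/

namespace Pool.Agent.Lib.MP_028aa5_nt

open Finset

open Classical in
/-- number of primes `w` in `(P,2P]` with `w^k γ - θ` within `ρ` of an integer -/
noncomputable def cnt (k P : ℕ) (γ θ ρ : ℝ) : ℕ :=
  #((Ioc P (2 * P)).filter fun w : ℕ => w.Prime ∧ Nr (w ^ k * γ - θ) ρ)

lemma cnt_le {k P z : ℕ} {γ θ ρ : ℝ} (hz : z ≤ P) (F : ℕ → ℝ) (hF : ∀ n, 0 ≤ F n)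
    (h : ∀ w : ℕ, P < w → w.Prime → Nr (w ^ k * γ - θ) ρ → 1 / 4 ≤ F w) :
    (cnt k P γ θ ρ : ℝ) ≤ 4 * ∑ n ∈ Ioc P (2 * P) with n.Prime ∧ z < n, F n := by
  classical
  unfold cnt
  rw [card_eq_sum_ones, Nat.cast_sum, mul_sum]
  refine (sum_le_sum (g := fun n => 4 * F n) fun w hw => ?_).trans
    (sum_le_sum_of_subset_of_nonneg (fun w hw => ?_) fun n _ _ => by linarith [hF n])
  · simp only [mem_filter, mem_Ioc] at hw
    have := h w hw.1.1 hw.2.1 hw.2.2
    push_cast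
    linarith
  · simp only [mem_filter, mem_Ioc] at hw ⊢
    exact ⟨hw.1, hw.2.1, by omega⟩

lemma minor {k A M z P : ℕ} (hW : WeylSt k A) (hM : 0 < M) (hz : 2 ≤ z) (hMz : M ≤ z)
    (hzP : z ≤ P) {γ : ℝ} (hγ : ∀ q : ℕ, 1 ≤ q → q ≤ z ^ (9 * A + 2 * k + 1) →
      ¬Nr (q * γ) (z ^ (9 * A + 2 * k + 1) / P ^ k)) (θ : ℝ) :
    (cnt k P γ θ (1 / (16 * M)) : ℝ) ≤
      4 * (2 * (P / M) / Real.log z + (P / z ^ 9 + 1) * z ^ 6) := by
  have z2 : (2 : ℝ) ≤ z := by exact_mod_cast hz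
  have M1 : (1 : ℝ) ≤ M := by exact_mod_cast hM
  refine (cnt_le hzP (fun n => K M (n ^ k * γ - θ)) (fun _ => K_nonneg _ _)
    fun w _ _ h => K_ge hM h).trans (mul_le_mul_of_nonneg_left ?_ (by norm_num))
  have := sieve_q (q := 1) one_ne_zero hz (Ioc P (2 * P)) (fun n => K M (n ^ k * γ - θ))
    (fun _ _ => K_nonneg _ _) (Y := P / M) (R := P / z ^ 9 + 1) (by positivity) (by positivity) ?_
  · simpa using this
  intro D D0 hD _ a ha
  have h1 := fejer_sum hM ((Ioc P (2 * P)).filter fun n => n % D = a) (fun n => n ^ k * γ) θ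
    (B := P / z ^ 9) (by positivity) fun j j1 j2 => by
      by_contra hc
      rw [not_le, sum_ap ha P (2 * P) fun x => e (j * (x ^ k * γ))] at hc
      obtain ⟨q, q1, q2, q3⟩ := hW (z ^ 9) _ _ P ((P + (D - a)) / D) ((2 * P + (D - a)) / D)
        (z2.trans (le_self_pow₀ (by linarith) (by omega)))
        ((PD.mono k (j * γ)).affine (a - D) D)
        (by
          rw [← Nat.add_mul_div_right _ _ D0]
          exact Nat.div_le_div_right (by nlinarith)) (by omega)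
        (by simpa only [mul_left_comm (j : ℝ)] using hc.le)
      refine hγ (q * D ^ k * j) (Nat.mul_pos (Nat.mul_pos q1 (Nat.pow_pos D0)) j1) ?_ ?_
      · have a1 : q ≤ z ^ (9 * A) := by rw [pow_mul]; exact_mod_cast q2
        have a2 : D ^ k ≤ z ^ (2 * k) := by rw [pow_mul]; exact Nat.pow_le_pow_left hD k
        rw [pow_succ, pow_add]
        exact Nat.mul_le_mul (Nat.mul_le_mul a1 a2) (by omega)
      · rw [show ((q * D ^ k * j : ℕ) : ℝ) * γ = q * (D ^ k * (j * γ)) by push_cast; ring]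
        refine q3.mono (div_le_div_of_nonneg_right ?_ (by positivity))
        rw [← pow_mul]
        exact pow_le_pow_right₀ (by linarith) (by omega)
  have h2 := card_ap ha (show P ≤ 2 * P by omega)
  rw [show (((2 * P : ℕ) : ℝ) - P) / D = P / D by push_cast; ring] at h2
  have h3 : |(#{n ∈ Ioc P (2 * P) | n % D = a} : ℝ) / M - P / M / D| ≤ 1 := by
    rw [div_right_comm, ← sub_div, abs_div, Nat.abs_cast]
    exact div_le_one_of_le₀ (h2.trans M1) (by positivity)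
  exact (abs_sub_le _ _ _).trans (add_le_add h1 h3)

lemma cop_add {s t : ℕ} (n : ℕ) (h : s ∣ t) : s.Coprime (n + t) ↔ s.Coprime n := by
  obtain ⟨c, rfl⟩ := h
  simp

lemma prod_plus_le {q : ℕ} (hq : q ≠ 0) : ∏ p ∈ q.primeFactors, (1 + 1 / (p : ℝ)) ≤ q := by
  have h1 : ((∏ p ∈ q.primeFactors, p : ℕ) : ℝ) ≤ q := by
    exact_mod_cast Nat.le_of_dvd (Nat.pos_of_ne_zero hq) (Nat.prod_primeFactors_dvd q)
  refine le_trans ?_ h1
  rw [Nat.cast_prod]
  refine prod_le_prod (fun p _ => by positivity) fun p hp => ?_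
  have : (2 : ℝ) ≤ p := by exact_mod_cast (Nat.prime_of_mem_primeFactors hp).two_le
  have : 1 / (p : ℝ) ≤ 1 := div_le_one_of_le₀ (by linarith) (by linarith)
  linarith

lemma prod_tot {q s p : ℕ} (hs : s ≠ 0) (h : ∀ l ∈ q.primeFactors, l ∣ s ∨ l = p) :
    (s.totient : ℝ) / s * ∏ l ∈ q.primeFactors, (1 + 1 / (l : ℝ)) ≤ 2 := by
  have s0 : (0 : ℝ) < s := by exact_mod_cast Nat.pos_of_ne_zero hs
  have h1 : (s.totient : ℝ) = s * ∏ l ∈ s.primeFactors, (1 - (l : ℝ)⁻¹) := by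
    have := congrArg (Rat.cast : ℚ → ℝ) (Nat.totient_eq_mul_prod_factors s)
    push_cast at this
    exact this
  have one : ∀ l : ℕ, (1 : ℝ) ≤ 1 + 1 / (l : ℝ) := fun l => le_add_of_nonneg_right (by positivity)
  have h2 : ∏ l ∈ q.primeFactors, (1 + 1 / (l : ℝ)) ≤
      ∏ l ∈ insert p s.primeFactors, (1 + 1 / (l : ℝ)) :=
    prod_le_prod_of_subset_of_one_le (fun l hl => by
      rcases h l hl with h | h
      · exact mem_insert_of_mem (Nat.mem_primeFactors.2 ⟨Nat.prime_of_mem_primeFactors hl, h, hs⟩)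
      · rw [h]; exact mem_insert_self _ _) (fun p _ => by positivity) fun p _ _ => one p
  have h0 : 0 ≤ ∏ l ∈ s.primeFactors, (1 + 1 / (l : ℝ)) := prod_nonneg fun _ _ => by positivity
  have h3 : ∏ l ∈ insert p s.primeFactors, (1 + 1 / (l : ℝ)) ≤
      2 * ∏ l ∈ s.primeFactors, (1 + 1 / (l : ℝ)) := by
    by_cases hp : p ∈ s.primeFactors
    · rw [insert_eq_of_mem hp]; linarith
    · rw [prod_insert hp]
      have : 1 / (p : ℝ) ≤ 1 := by simpa using Nat.cast_inv_le_one (α := ℝ) p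
      exact mul_le_mul_of_nonneg_right (by linarith) h0
  have l1 : ∀ l : ℕ, 0 ≤ 1 - (l : ℝ)⁻¹ := fun l => sub_nonneg.2 (Nat.cast_inv_le_one l)
  have h4 : (∏ l ∈ s.primeFactors, (1 - (l : ℝ)⁻¹)) * ∏ l ∈ s.primeFactors, (1 + 1 / (l : ℝ))
      ≤ 1 := by
    rw [← prod_mul_distrib]
    refine prod_le_one (fun l _ => mul_nonneg (l1 l) (by positivity)) fun l _ => ?_
    rw [one_div]
    nlinarith [sq_nonneg ((l : ℝ)⁻¹)]
  rw [h1, mul_div_cancel_left₀ _ s0.ne']
  nlinarith [mul_le_mul_of_nonneg_left (h2.trans h3) (prod_nonneg fun l (_ : l ∈ s.primeFactors) =>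
    l1 l)]

lemma shift_avg {s N u v : ℕ} (huv : u ≤ v) (hN : 0 < N) (φ : ℕ → ℝ) {B : ℝ}
    (h : ∀ n, ‖∑ t ∈ Ioc 0 N, e (φ (n + s * t))‖ ≤ N * B) :
    ‖∑ n ∈ Ioc u v with s.Coprime n, e (φ n)‖ ≤
      #{n ∈ Ioc u v | s.Coprime n} * B + 2 * (s * N) := by
  have N0 : (0 : ℝ) < N := by exact_mod_cast hN
  set S := ∑ n ∈ Ioc u v with s.Coprime n, e (φ n) with hS
  have h1 : ∀ t ∈ Ioc 0 N,
      ‖∑ n ∈ Ioc u v with s.Coprime n, e (φ (n + s * t)) - S‖ ≤ 2 * (s * N) := fun t ht => by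
    have := shift_le (fun n => if s.Coprime n then e (φ n) else 0)
      (fun n => by split_ifs <;> simp) huv (s * t)
    simp only [cop_add _ (dvd_mul_right s t), ← sum_filter] at this
    refine this.trans (mul_le_mul_of_nonneg_left ?_ zero_le_two)
    exact_mod_cast Nat.mul_le_mul_left s (mem_Ioc.1 ht).2
  have h2 := (norm_sum_le _ _).trans (sum_le_card_nsmul _ _ _ h1)
  rw [sum_sub_distrib, sum_comm, sum_const, Nat.card_Ioc, Nat.sub_zero, nsmul_eq_mul,
    nsmul_eq_mul] at h2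
  have h3 := (norm_sum_le _ _).trans (sum_le_card_nsmul ((Ioc u v).filter fun n => s.Coprime n)
    _ _ fun n _ => h n)
  rw [nsmul_eq_mul] at h3
  have h4 := norm_sub_norm_le ((N : ℂ) * S)
    (∑ n ∈ Ioc u v with s.Coprime n, ∑ t ∈ Ioc 0 N, e (φ (n + s * t)))
  rw [norm_sub_rev, norm_mul, Complex.norm_natCast] at h4
  refine le_of_mul_le_mul_left ?_ N0
  nlinarith

lemma major {k M z P q s N p : ℕ} (hM : 2 ≤ M) (hz : 2 ≤ z) (hzP : z ≤ P) (hq : 0 < q)
    (hs : s ∣ q) (hp : ∀ l ∈ q.primeFactors, l ∣ s ∨ l = p) (hN : 0 < N)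
    (hP : M * (q * q * N) ≤ P) {γ τ : ℝ}
    (hin : ∀ n j : ℕ, 1 ≤ j → j < M →
      ‖∑ t ∈ Ioc 0 N, e (j * (((n + s * t : ℕ) : ℝ) ^ k * γ))‖ ≤ N * (1 / M))
    (τ0 : 0 ≤ τ)
    (hτ : ∀ j < z ^ 2, ∀ n ∈ Ioc P (2 * P), Nr (((n + q * j : ℕ) : ℝ) ^ k * γ - n ^ k * γ) τ)
    (θ : ℝ) : (cnt k P γ θ (1 / (16 * M)) : ℝ) ≤
      4 * (14 * (P / M) / Real.log z + (P * (14 * M * τ) + 2 * (q * z ^ 2)) * z ^ 6) := by
  have M0 : 0 < M := by omega
  have M2 : (2 : ℝ) ≤ M := by exact_mod_cast hM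
  have sq : s ≤ q := Nat.le_of_dvd hq hs
  have s0 : 0 < s := Nat.pos_of_dvd_of_pos hs hq
  have qP : q ≤ P := le_trans (le_trans (by nlinarith [Nat.mul_pos hq hN])
    (Nat.le_mul_of_pos_left (q * q * N) M0)) hP
  set F : ℕ → ℝ := fun n => if s.Coprime n then K M (n ^ k * γ - θ) else 0 with hF
  have F0 : ∀ n, 0 ≤ F n := fun n => by
    simp only [hF]; split_ifs; exacts [K_nonneg _ _, le_rfl]
  have F1 : ∀ n, |F n| ≤ 1 := fun n => by
    rw [abs_of_nonneg (F0 n)]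
    simp only [hF]; split_ifs; exacts [K_le_one _ _, zero_le_one]
  refine (cnt_le hzP F F0 fun w w1 w2 h => ?_).trans (mul_le_mul_of_nonneg_left ?_ (by norm_num))
  · simp only [hF]
    rw [if_pos (Nat.coprime_of_lt_prime s0.ne' (by omega) w2).symm]
    exact K_ge M0 h
  refine (sieve_q hq.ne' hz (Ioc P (2 * P)) F (fun n _ => F0 n) (Y := ∑ n ∈ Ioc P (2 * P), F n)
    (R := P * (14 * M * τ) + 2 * (q * z ^ 2)) (sum_nonneg fun n _ => F0 n) (by positivity)
    fun D D0 hD hc a ha => ?_).trans (add_le_add_left ?_ _)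
  · refine (class_equi F F1 (by omega) D0 hc (τ := 14 * M * τ) (fun j hj n hn => ?_)
      (by positivity) ha).trans (add_le_add (le_of_eq (by push_cast; ring)) ?_)
    · simp only [hF, cop_add _ (hs.mul_right j)]
      split_ifs
      · exact K_lip M0 (by rw [sub_sub_sub_cancel_right]; exact hτ j (by omega) n hn)
      · simp; positivity
    · have : (D : ℝ) ≤ z ^ 2 := by exact_mod_cast hD
      gcongr
  refine div_le_div_of_nonneg_right ?_ (Real.log_nonneg (by exact_mod_cast (by omega : 1 ≤ z)))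
  set c := (#{n ∈ Ioc P (2 * P) | s.Coprime n} : ℝ) with hc
  have h1 := fejer_sum M0 ((Ioc P (2 * P)).filter fun n => s.Coprime n) (fun n => n ^ k * γ) θ
    (B := c * (1 / M) + 2 * (s * N)) (by positivity) fun j j1 j2 =>
      shift_avg (by omega) hN (fun n => j * (n ^ k * γ)) fun n => hin n j j1 j2
  have h2 : ∑ n ∈ Ioc P (2 * P), F n ≤ c / M + (c * (1 / M) + 2 * (s * N)) := by
    simp only [hF, ← sum_filter]
    linarith [(abs_le.1 h1).2]
  have s1 : (0 : ℝ) < s := by exact_mod_cast s0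
  have h3 : c ≤ s.totient / s * P + s := by
    have a1 := Nat.Ico_filter_coprime_le (a := s) (P + 1) P s0.ne'
    rw [show P + 1 + P = 2 * P + 1 by ring, Ico_add_one_add_one_eq_Ioc] at a1
    have a2 : c ≤ s.totient * ((P / s : ℕ) + 1) := by rw [hc]; exact_mod_cast a1
    have a3 : (s.totient : ℝ) ≤ s := by exact_mod_cast Nat.totient_le s
    have a4 : ((P / s : ℕ) : ℝ) ≤ P / s := Nat.cast_div_le
    have a5 := mul_le_mul_of_nonneg_left a4 (Nat.cast_nonneg s.totient)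
    rw [div_mul_eq_mul_div, mul_div_assoc]
    linarith
  set W := ∏ l ∈ q.primeFactors, (1 + 1 / (l : ℝ)) with hW
  have W0 : 0 ≤ W := prod_nonneg fun _ _ => by positivity
  have h4 : W ≤ q := prod_plus_le hq.ne'
  have h5 := prod_tot s0.ne' hp
  have h6 : (q : ℝ) * q * N ≤ P / M := by
    rw [le_div_iff₀' (by linarith)]; exact_mod_cast hP
  have N1 : (1 : ℝ) ≤ N := by exact_mod_cast hN
  have h7 : s * W ≤ q * q := mul_le_mul (by exact_mod_cast sq) h4 W0 (by positivity)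
  have h8 : s * W * N ≤ P / M := (mul_le_mul_of_nonneg_right h7 (by positivity)).trans h6
  have h9 : s * W ≤ P / M := le_trans (le_mul_of_one_le_right (by positivity) N1) h8
  have h10 : c * W ≤ 2 * P + P / M := by
    have P0 : (0 : ℝ) ≤ P := by positivity
    nlinarith [mul_le_mul_of_nonneg_right h3 W0, mul_le_mul_of_nonneg_right h5 P0]
  have h11 : c / M * W ≤ 2 * (P / M) + P / M / 2 := by
    rw [div_mul_eq_mul_div]
    refine (div_le_div_of_nonneg_right h10 (by linarith)).trans ?_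
    rw [add_div, mul_div_assoc]
    exact add_le_add_right (div_le_div_of_nonneg_left (by positivity) (by norm_num) M2) _
  rw [mul_one_div] at h2
  nlinarith [mul_le_mul_of_nonneg_right h2 W0]

end Pool.Agent.Lib.MP_028aa5_nt
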