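import Mathlib

/-! Exponentials, distance to the integers, a Bessel inequality, polynomial functions. -/

namespace Pool.Agent.Lib.MP_028aa5_nt

open Finset Complex
open scoped ComplexConjugate

/-- `e(x) = exp(2 pi i x)` -/
noncomputable def e (x : ℝ) : ℂ := Complex.exp (2 * Real.pi * I * x)

lemma e_eq (x : ℝ) : e x = Complex.exp (((2 * Real.pi * x : ℝ) : ℂ) * I) := by
  unfold e; congr 1; push_cast; ring

lemma e_add (x y : ℝ) : e (x + y) = e x * e y := by
  unfold e; rw [← Complex.exp_add]; congr 1; push_cast; ring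

@[simp] lemma norm_e (x : ℝ) : ‖e x‖ = 1 := by rw [e_eq, Complex.norm_exp_ofReal_mul_I]

@[simp] lemma e_zero : e 0 = 1 := by simp [e]

lemma e_int (m : ℤ) : e m = 1 := by
  unfold e
  rw [show 2 * (Real.pi : ℂ) * I * ((m : ℝ) : ℂ) = m * (2 * Real.pi * I) by push_cast; ring]
  exact Complex.exp_int_mul_two_pi_mul_I m

lemma e_sub_int (x : ℝ) (m : ℤ) : e (x - m) = e x := by
  have := e_add (x - m) m
  rw [sub_add_cancel, e_int, mul_one] at this
  exact this.symm

lemma conj_e (x : ℝ) : conj (e x) = e (-x) := by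
  unfold e
  rw [← Complex.exp_conj]
  congr 1
  simp [Complex.conj_ofReal, Complex.conj_ofNat]

lemma e_mul_conj (x y : ℝ) : e x * conj (e y) = e (x - y) := by
  rw [conj_e, ← e_add, sub_eq_add_neg]

lemma norm_e_sub_one_le (x : ℝ) : ‖e x - 1‖ ≤ 7 * |x| := by
  have h := Real.norm_exp_I_mul_ofReal_sub_one_le (x := 2 * Real.pi * x)
  rw [e_eq, mul_comm]
  refine h.trans ?_
  rw [Real.norm_eq_abs, abs_mul, abs_of_pos (by positivity : 0 < 2 * Real.pi)]
  exact mul_le_mul_of_nonneg_right (by linarith [Real.pi_lt_d2]) (abs_nonneg _)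

lemma norm_e_sub_le (x y : ℝ) : ‖e x - e y‖ ≤ 7 * |x - y| := by
  have : e x - e y = e y * (e (x - y) - 1) := by
    rw [mul_sub, ← e_add, mul_one, add_sub_cancel]
  rw [this, norm_mul, norm_e, one_mul]
  exact norm_e_sub_one_le _

lemma le_norm_e_sub_one {x : ℝ} (hx : |x| ≤ 1 / 2) : 4 * |x| ≤ ‖e x - 1‖ := by
  rw [e_eq, mul_comm (((2 * Real.pi * x : ℝ) : ℂ)) I, Complex.norm_exp_I_mul_ofReal_sub_one,
    show 2 * Real.pi * x / 2 = Real.pi * x by ring, Real.norm_eq_abs, abs_mul, abs_two]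
  have h1 : |Real.pi * x| ≤ Real.pi / 2 := by
    rw [abs_mul, abs_of_pos Real.pi_pos]
    nlinarith [Real.pi_pos]
  have h2 := Real.mul_abs_le_abs_sin h1
  rw [abs_mul, abs_of_pos Real.pi_pos, ← mul_assoc, div_mul_cancel₀ _ Real.pi_ne_zero] at h2
  linarith

/-- `x` is within `η` of an integer -/
def Nr (x η : ℝ) : Prop := ∃ m : ℤ, |x - m| ≤ η

lemma Nr.mono {x η η' : ℝ} (h : Nr x η) (h' : η ≤ η') : Nr x η' :=
  h.imp fun _ hm => hm.trans h'

lemma Nr.add {x y η η' : ℝ} (h : Nr x η) (h' : Nr y η') : Nr (x + y) (η + η') := by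
  obtain ⟨m, hm⟩ := h
  obtain ⟨n, hn⟩ := h'
  refine ⟨m + n, ?_⟩
  rw [show x + y - ((m + n : ℤ) : ℝ) = (x - m) + (y - n) by push_cast; ring]
  exact (abs_add_le _ _).trans (add_le_add hm hn)

lemma Nr.int_mul {x η : ℝ} (h : Nr x η) (c : ℤ) : Nr (c * x) (|(c : ℝ)| * η) := by
  obtain ⟨m, hm⟩ := h
  refine ⟨c * m, ?_⟩
  rw [show c * x - ((c * m : ℤ) : ℝ) = c * (x - m) by push_cast; ring, abs_mul]
  exact mul_le_mul_of_nonneg_left hm (abs_nonneg _)

lemma Nr.nat_mul {x η : ℝ} (h : Nr x η) (c : ℕ) : Nr (c * x) (c * η) := by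
  simpa using h.int_mul c

lemma Nr.neg {x η : ℝ} (h : Nr x η) : Nr (-x) η := by
  simpa using h.int_mul (-1)

lemma Nr.sub {x y η η' : ℝ} (h : Nr x η) (h' : Nr y η') : Nr (x - y) (η + η') := by
  rw [sub_eq_add_neg]; exact h.add h'.neg

lemma Nr.of_abs {x η : ℝ} (h : |x| ≤ η) : Nr x η := ⟨0, by simpa using h⟩

lemma Nr.half (x : ℝ) : Nr x (1 / 2) := ⟨round x, abs_sub_round x⟩

lemma Nr.nonneg {x η : ℝ} (h : Nr x η) : 0 ≤ η := by
  obtain ⟨m, hm⟩ := h
  exact (abs_nonneg _).trans hm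

lemma Nr.abs_le {x η : ℝ} (h : Nr x η) (hx : |x| ≤ 1 / 2) : |x| ≤ η := by
  obtain ⟨m, hm⟩ := h
  by_cases h0 : m = 0
  · simpa [h0] using hm
  · have h1 : (1 : ℝ) ≤ |(m : ℝ)| := by exact_mod_cast Int.one_le_abs h0
    have h2 := abs_sub_abs_le_abs_sub (m : ℝ) x
    rw [abs_sub_comm] at h2
    linarith

/-- a Bessel type inequality -/
lemma bessel {ι : Type*} (I : Finset ℕ) (T : Finset ι) (a : ℕ → ℂ) (v : ι → ℕ → ℂ) {B : ℝ}
    (hB : ∀ i ∈ T, ∑ j ∈ T, ‖∑ n ∈ I, v i n * conj (v j n)‖ ≤ B) (hB0 : 0 ≤ B) :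
    ∑ i ∈ T, ‖∑ n ∈ I, a n * v i n‖ ^ 2 ≤ B * ∑ n ∈ I, ‖a n‖ ^ 2 := by
  set c : ι → ℂ := fun i => ∑ n ∈ I, a n * v i n with hc
  set S : ℝ := ∑ i ∈ T, ‖c i‖ ^ 2 with hS
  set w : ℕ → ℂ := fun n => ∑ i ∈ T, conj (c i) * v i n with hw
  have S0 : 0 ≤ S := sum_nonneg fun _ _ => sq_nonneg _
  have h1 : (S : ℂ) = ∑ n ∈ I, a n * w n := by
    simp only [hw, mul_sum]
    rw [sum_comm, hS]
    push_cast
    refine sum_congr rfl fun i _ => ?_
    rw [← Complex.conj_mul', hc]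
    simp only [mul_sum]
    exact sum_congr rfl fun n _ => by ring
  have h2 : S ≤ ∑ n ∈ I, ‖a n‖ * ‖w n‖ := by
    have : S = ‖(S : ℂ)‖ := by rw [Complex.norm_real, Real.norm_eq_abs, abs_of_nonneg S0]
    rw [this, h1]
    exact (norm_sum_le _ _).trans (le_of_eq (sum_congr rfl fun n _ => norm_mul _ _))
  have h3 : ∑ n ∈ I, ‖w n‖ ^ 2 ≤ B * S := by
    have e1 : ((∑ n ∈ I, ‖w n‖ ^ 2 : ℝ) : ℂ) =
        ∑ i ∈ T, ∑ j ∈ T, (conj (c i) * c j) * ∑ n ∈ I, v i n * conj (v j n) := by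
      push_cast
      simp only [← Complex.mul_conj', hw, map_sum, map_mul, Complex.conj_conj, sum_mul_sum,
        mul_sum (s := I)]
      rw [sum_comm]
      refine sum_congr rfl fun i _ => ?_
      rw [sum_comm]
      exact sum_congr rfl fun j _ => sum_congr rfl fun n _ => by ring
    have e0 : ∑ n ∈ I, ‖w n‖ ^ 2 = ‖((∑ n ∈ I, ‖w n‖ ^ 2 : ℝ) : ℂ)‖ := by
      rw [Complex.norm_real, Real.norm_eq_abs, abs_of_nonneg (sum_nonneg fun _ _ => sq_nonneg _)]
    set g : ι → ι → ℝ := fun i j => ‖∑ n ∈ I, v i n * conj (v j n)‖ with hg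
    have sym : ∀ i j, g i j = g j i := fun i j => by
      simp only [hg]
      rw [← Complex.norm_conj, map_sum]
      congr 1
      exact sum_congr rfl fun n _ => by rw [map_mul, Complex.conj_conj, mul_comm]
    have e2 : ∑ n ∈ I, ‖w n‖ ^ 2 ≤
        ∑ i ∈ T, ∑ j ∈ T, (‖c i‖ ^ 2 * g i j / 2 + ‖c j‖ ^ 2 * g j i / 2) := by
      rw [e0, e1]
      refine (norm_sum_le _ _).trans (sum_le_sum fun i _ => (norm_sum_le _ _).trans
        (sum_le_sum fun j _ => ?_))
      rw [norm_mul, norm_mul, Complex.norm_conj, sym j i]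
      have : 0 ≤ g i j := norm_nonneg _
      nlinarith [mul_nonneg this (sq_nonneg (‖c i‖ - ‖c j‖))]
    simp only [sum_add_distrib] at e2
    rw [sum_comm (f := fun i j => ‖c j‖ ^ 2 * g j i / 2)] at e2
    have e3 : ∑ i ∈ T, ∑ j ∈ T, ‖c i‖ ^ 2 * g i j / 2 ≤ B * S / 2 := by
      rw [hS, mul_sum, sum_div]
      refine sum_le_sum fun i hi => ?_
      rw [← sum_div, ← mul_sum, mul_comm B]
      exact div_le_div_of_nonneg_right (mul_le_mul_of_nonneg_left (hB i hi) (sq_nonneg _))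
        zero_le_two
    linarith
  have h4 := sum_mul_sq_le_sq_mul_sq I (fun n => ‖a n‖) (fun n => ‖w n‖)
  have A0 : 0 ≤ ∑ n ∈ I, ‖a n‖ ^ 2 := sum_nonneg fun _ _ => sq_nonneg _
  have h5 : S ^ 2 ≤ (∑ n ∈ I, ‖a n‖ ^ 2) * (B * S) :=
    (pow_le_pow_left₀ S0 h2 2).trans (h4.trans (mul_le_mul_of_nonneg_left h3 A0))
  rcases S0.eq_or_lt with h | h
  · rw [← h]; positivity
  · refine le_of_mul_le_mul_right ?_ h
    nlinarith

/-- `g` is a polynomial function of degree at most `k` with `k`-th coefficient `α` -/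
def PD : ℕ → ℝ → (ℝ → ℝ) → Prop
  | 0, α, g => ∀ x, g x = α
  | k + 1, α, g => ∀ h : ℝ, PD k ((k + 1) * h * α) fun x => g (x + h) - g x

lemma PD.sub {k : ℕ} : ∀ {α β : ℝ} {g g' : ℝ → ℝ}, PD k α g → PD k β g' →
    PD k (α - β) fun x => g x - g' x := by
  induction k with
  | zero => intro α β g g' h h' x; beta_reduce; rw [h x, h' x]
  | succ k ih =>
    intro α β g g' h h' t
    have := ih (h t) (h' t)
    rw [← mul_sub] at this
    convert this using 2
    ring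

lemma PD.affine {k : ℕ} (a D : ℝ) : ∀ {α : ℝ} {g : ℝ → ℝ}, PD k α g →
    PD k (D ^ k * α) fun x => g (a + D * x) := by
  induction k with
  | zero => intro α g h x; beta_reduce; rw [h, pow_zero, one_mul]
  | succ k ih =>
    intro α g h t
    have := ih (h (D * t))
    rw [show D ^ k * ((k + 1) * (D * t) * α) = (k + 1) * t * (D ^ (k + 1) * α) by ring] at this
    simpa only [mul_add, add_assoc] using this

open Polynomial in
lemma PD.poly (k : ℕ) : ∀ φ : ℝ[X], φ.natDegree ≤ k → PD k (φ.coeff k) fun x => φ.eval x := by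
  induction k with
  | zero =>
    intro φ h x
    rw [eq_C_of_natDegree_le_zero h]
    simp
  | succ k ih =>
    intro φ h t
    have hc : ∀ i, k ≤ i → (taylor t φ - φ).coeff i = (i + 1) * t * φ.coeff (i + 1) := by
      intro i hi
      have h1 : (hasseDeriv i φ).natDegree < 2 :=
        lt_of_le_of_lt (natDegree_hasseDeriv_le φ i) (by omega)
      rw [coeff_sub, taylor_coeff, eval_eq_sum_range' h1, sum_range_succ, sum_range_one,
        hasseDeriv_coeff, hasseDeriv_coeff]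
      simp [add_comm 1 i, Nat.choose_succ_self_right]
      ring
    have h2 : (taylor t φ - φ).natDegree ≤ k := by
      rw [natDegree_le_iff_coeff_eq_zero]
      intro i hi
      rw [hc i hi.le, coeff_eq_zero_of_natDegree_lt (by omega), mul_zero]
    have := ih _ h2
    rw [hc k le_rfl] at this
    simpa only [eval_sub, taylor_eval] using this

lemma PD.mono (k : ℕ) (α : ℝ) : PD k α fun x => x ^ k * α := by
  have := PD.poly k (Polynomial.monomial k α) (Polynomial.natDegree_monomial_le _)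
  simpa [mul_comm] using this

end Pool.Agent.Lib.MP_028aa5_nt
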