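import Pool.Agent.Lib.MP_028aa5_nt.Arcs

/-! Primes with `w^k γ` in a short arc: the dichotomy. -/

namespace Pool.Agent.Lib.MP_028aa5_nt

open Finset

lemma absorb {M z : ℕ} {P x : ℝ} (hM : 0 < M) (hMz : M ≤ z) (hz : 2 ≤ z) (hx : 0 ≤ x)
    (h : x * z ^ 2 ≤ P) : x ≤ P / M / Real.log z := by
  have z1 : (1 : ℝ) < z := by exact_mod_cast hz
  have M0 : (0 : ℝ) < M := by exact_mod_cast hM
  have M1 : (M : ℝ) ≤ z := by exact_mod_cast hMz
  have l1 := Real.log_le_self (show (0 : ℝ) ≤ z by linarith)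
  have l0 := Real.log_pos z1
  rw [div_div, le_div_iff₀ (by positivity)]
  refine le_trans (mul_le_mul_of_nonneg_left ?_ hx) h
  rw [sq]
  exact mul_le_mul M1 l1 l0.le (by linarith)

lemma reduce {q : ℕ} (hq : 1 ≤ q) {γ η : ℝ} (h : Nr (q * γ) η) :
    ∃ (q' : ℕ) (r : ℤ), 1 ≤ q' ∧ q' ≤ q ∧ IsCoprime (q' : ℤ) r ∧ |q' * γ - r| ≤ η := by
  obtain ⟨m, hm⟩ := h
  have g0 : 0 < Int.gcd m q := Int.gcd_pos_of_ne_zero_right _ (by omega)
  obtain ⟨r, n, h1, h2, h3⟩ := Int.exists_gcd_one g0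
  generalize Int.gcd m q = g at g0 h2 h3
  have n0 : 0 < n := by
    by_contra hn
    nlinarith [mul_nonneg (neg_nonneg.2 (not_lt.1 hn)) (Int.natCast_nonneg g)]
  lift n to ℕ using n0.le
  have h4 : q = n * g := by exact_mod_cast h3
  refine ⟨n, r, by omega, by nlinarith, (Int.isCoprime_iff_gcd_eq_one.2 h1).symm, ?_⟩
  have g1 : (1 : ℝ) ≤ g := by exact_mod_cast g0
  rw [h2, h4, show ((n * g : ℕ) : ℝ) * γ - ((r * g : ℤ) : ℝ) = g * (n * γ - r) by push_cast; ring,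
    abs_mul, Nat.abs_cast] at hm
  nlinarith [abs_nonneg (n * γ - r)]

lemma inner_weyl {k A M N s n j : ℕ} (hW : WeylSt k A) (hM : 2 ≤ M) (hN : 0 < N) (j1 : 1 ≤ j)
    (j2 : j < M) {γ : ℝ}
    (h : ¬‖∑ t ∈ Ioc 0 N, e (j * (((n + s * t : ℕ) : ℝ) ^ k * γ))‖ ≤ N * (1 / M)) :
    ∃ c : ℕ, 1 ≤ c ∧ c ≤ M ^ (A + 1) ∧ Nr ((c * s ^ k : ℕ) * γ) (M ^ A / N ^ k) := by
  obtain ⟨q, q1, q2, q3⟩ := hW M _ _ N 0 N (by exact_mod_cast hM)
    ((PD.mono k (j * γ)).affine n s) (by omega) hN (by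
      rw [not_le, mul_one_div] at h
      simpa only [mul_left_comm (j : ℝ), Nat.cast_add, Nat.cast_mul] using h.le)
  refine ⟨q * j, Nat.mul_pos q1 j1, ?_, ?_⟩
  · rw [pow_succ]
    exact Nat.mul_le_mul (by exact_mod_cast q2) j2.le
  · rwa [show ((q * j * s ^ k : ℕ) : ℝ) * γ = q * (s ^ k * (j * γ)) by push_cast; ring]

lemma near_per {k q n j B : ℕ} {γ β : ℝ} {r : ℤ} (h : |q * γ - r| ≤ β) (hq : 1 ≤ q)
    (hB : n + q * j ≤ B) :
    Nr (((n + q * j : ℕ) : ℝ) ^ k * γ - n ^ k * γ) (q * j * k * B ^ (k - 1) * β) := by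
  obtain ⟨c, hc⟩ := (dvd_mul_right q j).trans
    (by simpa using Nat.sub_dvd_pow_sub_pow (n + q * j) n k : q * j ∣ (n + q * j) ^ k - n ^ k)
  have h1 : ((n + q * j : ℕ) : ℝ) ^ k - n ^ k = q * c := by
    have := congrArg (Nat.cast : ℕ → ℝ) hc
    rwa [Nat.cast_sub (Nat.pow_le_pow_left (by omega) k), Nat.cast_pow, Nat.cast_pow,
      Nat.cast_mul q c] at this
  have h2 := abs_pow_sub_pow_le ((n + q * j : ℕ) : ℝ) n k
  rw [h1, Nat.abs_cast, Nat.abs_cast, max_eq_left (by exact_mod_cast Nat.le_add_right _ _),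
    show ((n + q * j : ℕ) : ℝ) - n = q * j by push_cast; ring, abs_of_nonneg (by positivity),
    abs_of_nonneg (by positivity)] at h2
  have h3 : ((n + q * j : ℕ) : ℝ) ^ (k - 1) ≤ B ^ (k - 1) :=
    pow_le_pow_left₀ (by positivity) (by exact_mod_cast hB) _
  have q1 : (1 : ℝ) ≤ q := by exact_mod_cast hq
  rw [← sub_mul, h1, show q * c * γ = c * (q * γ) by ring]
  refine (Nr.nat_mul ⟨r, h⟩ c).mono (mul_le_mul_of_nonneg_right ?_ ((abs_nonneg _).trans h))
  refine (le_mul_of_one_le_left (by positivity) q1).trans (h2.trans ?_)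
  gcongr

lemma choose_step {k L q : ℕ} (hL : 0 < L) (hq : (L ^ (k + 1)).factorial < q) :
    ∃ s p : ℕ, s ∣ q ∧ (∀ l ∈ q.primeFactors, l ∣ s ∨ l = p) ∧
      ∀ c : ℕ, 1 ≤ c → c ≤ L → ¬q ∣ c * s ^ k := by
  have q0 : q ≠ 0 := by omega
  have h1 : ¬q ∣ (L ^ (k + 1)).factorial := fun h =>
    absurd (Nat.le_of_dvd (Nat.factorial_pos _) h) (by omega)
  rw [Nat.dvd_iff_prime_pow_dvd_dvd] at h1
  push Not at h1
  obtain ⟨p, i, hp, h2, h3⟩ := h1
  have h4 : L ^ (k + 1) < p ^ i := by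
    by_contra h
    exact h3 (Nat.dvd_factorial (Nat.pow_pos hp.pos) (not_lt.1 h))
  obtain ⟨j, q', h5, h6⟩ := Nat.exists_eq_pow_mul_and_not_dvd q0 p hp.ne_one
  have cop : p.Coprime q' := (Nat.Prime.coprime_iff_not_dvd hp).2 h5
  have h7 : p ^ i ∣ p ^ j := (cop.pow_left i).dvd_of_dvd_mul_right (h6 ▸ h2)
  have i0 : i ≠ 0 := by
    rintro rfl
    have := Nat.pow_pos (n := k + 1) hL
    rw [pow_zero] at h4
    omega
  have pf : ∀ l ∈ q.primeFactors, l ∣ q' ∨ l = p := fun l hl => by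
    have l1 := Nat.prime_of_mem_primeFactors hl
    have := Nat.dvd_of_mem_primeFactors hl
    rw [h6] at this
    rcases (Nat.Prime.dvd_mul l1).1 this with h | h
    · exact Or.inr ((Nat.prime_dvd_prime_iff_eq l1 hp).1 (l1.dvd_of_dvd_pow h))
    · exact Or.inl h
  rcases le_or_gt p L with h | h
  · refine ⟨p * q', p, ?_, fun l hl => (pf l hl).imp_left fun h => h.mul_left _,
      fun c c1 c2 hc => ?_⟩
    · rw [h6]
      exact Nat.mul_dvd_mul_right ((dvd_pow_self p i0).trans h7) _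
    · rw [mul_pow, ← mul_assoc] at hc
      have h8 := Nat.le_of_dvd (Nat.mul_pos c1 (Nat.pow_pos hp.pos))
        ((cop.pow i k).dvd_of_dvd_mul_right (h2.trans hc))
      have h9 := Nat.mul_le_mul c2 (Nat.pow_le_pow_left h k)
      rw [pow_succ'] at h4
      omega
  · refine ⟨q', p, Dvd.intro_left _ h6.symm, pf, fun c c1 c2 hc => ?_⟩
    have := Nat.le_of_dvd c1 ((cop.pow_right k).dvd_of_dvd_mul_right
      (((dvd_pow_self p i0).trans h2).trans hc))
    omega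

theorem cell {k : ℕ} (hk : 1 ≤ k) : ∃ T : ℕ, 9 ≤ T ∧ ∀ M : ℕ, 2 ≤ M → ∃ (Q : ℕ) (B : ℝ) (z0 : ℕ),
    0 ≤ B ∧ ∀ z ≥ z0, ∀ γ : ℝ, (∃ q : ℕ, 1 ≤ q ∧ q ≤ Q ∧ Nr (q * γ) (B / (z ^ T : ℕ) ^ k)) ∨
      ∀ θ, (cnt k (z ^ T) γ θ (1 / (16 * M)) : ℝ) ≤ 60 * ((z ^ T : ℕ) / M / Real.log z) := by
  obtain ⟨A, hW⟩ := weyl hk
  set E := 9 * A + 2 * k + 1 with hE
  refine ⟨E * k + 3 * E + 12, by omega, fun M hM => ?_⟩
  set L := M ^ (A + 1) with hL
  set Q := (L ^ (k + 1)).factorial with hQ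
  refine ⟨Q, M ^ A * (2 * (M * (Q * Q))) ^ k,
    2 + M + 4 * L + 14 * M * k * 3 ^ k + 2 * (M * (Q * Q)) + L * Q ^ k, by positivity,
    fun z hz γ => ?_⟩
  set T := E * k + 3 * E + 12 with hT
  set P := z ^ T with hP
  have z2 : 2 ≤ z := by omega
  have z2' : (2 : ℝ) ≤ z := by exact_mod_cast z2
  have pw : ∀ {i j : ℕ}, i ≤ j → z ^ i ≤ z ^ j := fun h => Nat.pow_le_pow_right (by omega) h
  have pw2 : ∀ {i : ℕ}, i < T → 2 * z ^ i ≤ P := fun {i} h => by
    have := pw (show i + 1 ≤ T from h)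
    rw [pow_succ] at this
    nlinarith [Nat.pow_pos (n := i) (show 0 < z by omega)]
  have zP : z ≤ P := by simpa using pw (show 1 ≤ T by omega)
  have P0 : (0 : ℝ) < P := by exact_mod_cast (by omega : 0 < P)
  have P1 : (1 : ℝ) ≤ P := by exact_mod_cast (by omega : 0 < P)
  have M0 : 0 < M := by omega
  have L0 : 0 < L := Nat.pow_pos M0
  have Q0 : 0 < Q := Nat.factorial_pos _
  have U0 : (0 : ℝ) ≤ P / M / Real.log z :=
    div_nonneg (by positivity) (Real.log_nonneg (by linarith))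
  by_cases hγ : ∃ q : ℕ, 1 ≤ q ∧ q ≤ z ^ E ∧ Nr (q * γ) (z ^ E / P ^ k)
  swap
  · push Not at hγ
    refine Or.inr fun θ => (minor hW M0 z2 (by omega) zP hγ θ).trans ?_
    have := absorb (x := (P / z ^ 9 + 1) * z ^ 6) (P := P) M0 (show M ≤ z by omega) z2
      (by positivity) (by
        have a1 : (2 : ℝ) * z ^ 8 ≤ P := by exact_mod_cast pw2 (show 8 < T by omega)
        have a2 : (P : ℝ) / z ≤ P / 2 := div_le_div_of_nonneg_left P0.le (by norm_num) z2'
        have a3 : ((P : ℝ) / z ^ 9 + 1) * z ^ 6 * z ^ 2 = P / z + z ^ 8 := by field_simp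
        linarith)
    rw [mul_div_assoc]
    linarith
  obtain ⟨q0, b1, b2, b3⟩ := hγ
  obtain ⟨q, r, q1, q2, q3, q4⟩ := reduce b1 b3
  replace q2 := q2.trans b2
  have q2' : (q : ℝ) ≤ z ^ E := by exact_mod_cast q2
  have Pk : (P : ℝ) ≤ P ^ k := le_self_pow₀ P1 (by omega)
  have q5 : |q * γ - r| ≤ z ^ E / P := q4.trans (div_le_div_of_nonneg_left (by positivity) P0 Pk)
  have fin : ∀ s p N : ℕ, s ∣ q → (∀ l ∈ q.primeFactors, l ∣ s ∨ l = p) → 0 < N →
      M * (q * q * N) ≤ P →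
      (∀ c : ℕ, 1 ≤ c → c ≤ L → ¬Nr ((c * s ^ k : ℕ) * γ) (M ^ A / N ^ k)) →
      ∀ θ, (cnt k P γ θ (1 / (16 * M)) : ℝ) ≤ 60 * (P / M / Real.log z) := by
    intro s p N h1 h2 h3 h4 h5 θ
    refine (major hM z2 zP q1 h1 h2 h3 h4
      (τ := z ^ E * z ^ 2 * k * (3 * P : ℕ) ^ (k - 1) * (z ^ E / P ^ k)) (fun n j j1 j2 => ?_)
      (by positivity) (fun j hj n hn => ?_) θ).trans ?_
    · by_contra hc
      obtain ⟨c, c1, c2, c3⟩ := inner_weyl hW hM h3 j1 j2 hc
      exact h5 c c1 c2 c3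
    · refine (near_per (B := 3 * P) q4 q1 ?_).mono ?_
      · have a1 := Nat.mul_le_mul q2 hj.le
        rw [← pow_add] at a1
        have a2 := pw (show E + 2 ≤ T by omega)
        have := (mem_Ioc.1 hn).2
        omega
      · have : (j : ℝ) ≤ z ^ 2 := by exact_mod_cast hj.le
        gcongr
    · have := absorb (x := (P * (14 * M * (z ^ E * z ^ 2 * k * (3 * P : ℕ) ^ (k - 1) *
          (z ^ E / P ^ k))) + 2 * (q * z ^ 2)) * z ^ 6) (P := P) M0 (show M ≤ z by omega) z2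
        (by positivity) (by
          obtain ⟨k, rfl⟩ := Nat.exists_eq_add_of_le' hk
          have a0 : 14 * M * (k + 1) * 3 ^ k ≤ z := by
            rw [pow_succ, ← mul_assoc] at hz
            omega
          have a1 : (14 : ℝ) * M * (k + 1) * 3 ^ k ≤ z := by exact_mod_cast a0
          have a2 : (2 : ℝ) * z ^ (2 * E + 11) ≤ P := by exact_mod_cast pw2 (by omega)
          have a3 : (2 : ℝ) * z ^ (E + 11) ≤ P := by exact_mod_cast pw2 (by omega)
          have a4 : (P * (14 * M * (z ^ E * z ^ 2 * (k + 1 : ℕ) * (3 * P : ℕ) ^ (k + 1 - 1) *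
              (z ^ E / P ^ (k + 1)))) + 2 * (q * z ^ 2) : ℝ) * z ^ 6 * z ^ 2 =
              14 * M * (k + 1) * 3 ^ k * z ^ (2 * E + 10) + 2 * q * z ^ 10 := by
            push_cast
            field_simp
            ring
          have a5 := mul_le_mul_of_nonneg_right a1 (show (0 : ℝ) ≤ z ^ (2 * E + 10) by positivity)
          have a6 := mul_le_mul z2' q2' (by positivity) (by positivity)
          have a7 := mul_le_mul_of_nonneg_right a6 (show (0 : ℝ) ≤ z ^ 10 by positivity)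
          rw [← pow_succ'] at a5
          rw [← pow_succ', ← pow_add] at a7
          linarith)
      rw [mul_div_assoc]
      linarith
  rcases lt_or_ge Q q with hq | hq
  · obtain ⟨s, p, s1, s2, s3⟩ := choose_step L0 hq
    refine Or.inr (fin s p (z ^ (E + 1)) s1 s2 (Nat.pow_pos (by omega)) ?_ fun c c1 c2 hc => ?_)
    · refine (Nat.mul_le_mul (show M ≤ z ^ 1 by rw [pow_one]; omega)
        (Nat.mul_le_mul_right _ (Nat.mul_le_mul q2 q2))).trans ?_
      rw [← pow_add, ← pow_add, ← pow_add]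
      exact pw (by omega)
    obtain ⟨m, hm⟩ := hc
    have a1 : c * s ^ k ≤ z ^ (E * k + 1) := by
      rw [pow_succ', pow_mul]
      exact Nat.mul_le_mul (by omega) (Nat.pow_le_pow_left ((Nat.le_of_dvd q1 s1).trans q2) k)
    refine s3 c c1 c2 ?_
    generalize c * s ^ k = d at hm a1
    have a2 : (d : ℝ) * (z ^ E / P) ≤ 1 / 2 := by
      have : 2 * (d * z ^ E) ≤ P := by
        have := Nat.mul_le_mul_right (z ^ E) a1
        rw [← pow_add] at this
        have := pw2 (show E * k + 1 + E < T by omega)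
        omega
      rw [← mul_div_assoc, div_le_div_iff₀ P0 two_pos, one_mul, mul_comm]
      exact_mod_cast this
    have a3 : (q : ℝ) * (M ^ A / (z ^ (E + 1) : ℕ) ^ k) ≤ 1 / 4 := by
      have N1 : (1 : ℝ) ≤ (z ^ (E + 1) : ℕ) := by exact_mod_cast Nat.pow_pos (by omega)
      have : 4 * (q * M ^ A) ≤ z ^ (E + 1) := by
        have : M ^ A ≤ L := Nat.pow_le_pow_right M0 (by omega)
        have := Nat.mul_le_mul q2 (show 4 * M ^ A ≤ z by omega)
        rw [pow_succ]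
        linarith
      rw [← mul_div_assoc, div_le_div_iff₀ (by positivity) four_pos, one_mul, mul_comm]
      exact le_trans (by exact_mod_cast this) (le_self_pow₀ N1 (by omega))
    have a4 : |((d * r - q * m : ℤ) : ℝ)| < 1 := by
      rw [show ((d * r - q * m : ℤ) : ℝ) = q * (d * γ - m) - d * (q * γ - r) by push_cast; ring]
      refine (abs_sub _ _).trans_lt ?_
      rw [abs_mul, abs_mul, Nat.abs_cast, Nat.abs_cast]
      linarith [mul_le_mul_of_nonneg_left hm (Nat.cast_nonneg q),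
        mul_le_mul_of_nonneg_left q5 (Nat.cast_nonneg d)]
    have a5 : d * r - q * m = 0 := Int.abs_lt_one_iff.1 (by exact_mod_cast a4)
    exact Int.natCast_dvd_natCast.1 (q3.dvd_of_dvd_mul_right ⟨m, by linarith⟩)
  · by_cases hb : |q * γ - r| ≤ M ^ A * (2 * (M * (Q * Q))) ^ k / P ^ k
    · exact Or.inl ⟨q, q1, hq, r, hb⟩
    have D0 : 0 < M * (Q * Q) := by positivity
    refine Or.inr (fin q 0 (P / (M * (Q * Q))) dvd_rfl
      (fun l hl => Or.inl (Nat.dvd_of_mem_primeFactors hl)) (Nat.div_pos (by omega) D0) ?_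
      fun c c1 c2 hc => hb ?_)
    · refine le_trans ?_ (Nat.mul_div_le P (M * (Q * Q)))
      rw [← mul_assoc]
      gcongr
    obtain ⟨k, rfl⟩ := Nat.exists_eq_add_of_le' hk
    have a1 : Nr ((c * q ^ k : ℕ) * (q * γ - r)) (M ^ A / (P / (M * (Q * Q)) : ℕ) ^ (k + 1)) := by
      obtain ⟨m, hm⟩ := hc
      refine ⟨m - c * q ^ k * r, le_of_eq_of_le ?_ hm⟩
      congr 1
      push_cast
      ring
    have a2 : c * q ^ k ≤ z := by
      have := Nat.mul_le_mul c2 ((Nat.pow_le_pow_left hq k).trans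
        (Nat.pow_le_pow_right Q0 (Nat.le_add_right k 1)))
      omega
    have a3 : (1 : ℝ) ≤ (c * q ^ k : ℕ) := by exact_mod_cast Nat.mul_pos c1 (Nat.pow_pos q1)
    have a4 := a1.abs_le (by
      rw [abs_mul, Nat.abs_cast]
      refine (mul_le_mul (Nat.cast_le.2 a2) q5 (abs_nonneg _) (by positivity)).trans ?_
      rw [← mul_div_assoc, div_le_div_iff₀ P0 two_pos, one_mul, mul_comm, ← pow_succ']
      exact_mod_cast pw2 (by omega))
    rw [abs_mul, Nat.abs_cast] at a4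
    refine ((le_mul_of_one_le_left (abs_nonneg _) a3).trans a4).trans ?_
    have a5 : P ≤ 2 * (M * (Q * Q)) * (P / (M * (Q * Q))) := by
      have := Nat.div_add_mod P (M * (Q * Q))
      have := Nat.mod_lt P D0
      have := Nat.le_mul_of_pos_right (M * (Q * Q)) (Nat.div_pos (show M * (Q * Q) ≤ P by omega) D0)
      rw [mul_assoc]
      omega
    have a6 : (0 : ℝ) < (P / (M * (Q * Q)) : ℕ) := by
      exact_mod_cast Nat.div_pos (show M * (Q * Q) ≤ P by omega) D0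
    rw [div_le_div_iff₀ (by positivity) (by positivity), mul_assoc, ← mul_pow]
    exact mul_le_mul_of_nonneg_left (pow_le_pow_left₀ P0.le (by exact_mod_cast a5) _)
      (by positivity)

end Pool.Agent.Lib.MP_028aa5_nt
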