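import Mathlib

/-! Counting lemmas: clusters, common neighbours, double counting with Lebesgue measure. -/

namespace Pool.Agent.Lib.MP_028aa5_nt

open Finset MeasureTheory

open Classical in
lemma cluster (A : Finset ℕ) (ρ : ℕ → ℕ → Prop) (h1 : ∀ p, ρ p p) (h2 : ∀ p q, ρ p q → ρ q p)
    {t : ℝ} (h : ∀ T ⊆ A, (∀ p ∈ T, ∀ q ∈ T, p ≠ q → ¬ρ p q) → (#T : ℝ) ≤ t) :
    (#A : ℝ) ^ 2 ≤ t * #{x ∈ A ×ˢ A | ∃ r, ρ x.1 r ∧ ρ x.2 r} := by
  obtain ⟨T, hT, hm⟩ := Set.exists_max_image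
    {T : Finset ℕ | T ⊆ A ∧ ∀ p ∈ T, ∀ q ∈ T, p ≠ q → ¬ρ p q} card
    (A.powerset.finite_toSet.subset fun T hT => mem_coe.2 (mem_powerset.2 hT.1)) ⟨∅, by simp⟩
  have h3 : ∀ p ∈ A, ∃ r ∈ T, ρ p r := fun p hp => by
    by_contra hc
    push Not at hc
    have h4 : p ∉ T := fun h => hc p h (h1 p)
    have := hm (insert p T) ⟨insert_subset hp hT.1,
      fun a ha b hb hab => by
        rcases mem_insert.1 ha with rfl | ha' <;> rcases mem_insert.1 hb with rfl | hb'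
        · exact absurd rfl hab
        · exact hc b hb'
        · exact fun h => hc a ha' (h2 _ _ h)
        · exact hT.2 a ha' b hb' hab⟩
    rw [card_insert_of_notMem h4] at this
    omega
  choose! c c1 c2 using h3
  have h5 : (#A : ℝ) = ∑ r ∈ T, (#{p ∈ A | c p = r} : ℝ) := by
    rw [card_eq_sum_card_fiberwise c1, Nat.cast_sum]
  have h6 : ∑ r ∈ T, (#{p ∈ A | c p = r} : ℝ) ^ 2 ≤ #{x ∈ A ×ˢ A | ∃ r, ρ x.1 r ∧ ρ x.2 r} := by
    have : ∑ r ∈ T, #{p ∈ A | c p = r} ^ 2 = #{x ∈ A ×ˢ A | c x.1 = c x.2} := by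
      rw [card_eq_sum_card_fiberwise (f := fun x : ℕ × ℕ => c x.1) (t := T)
        fun x hx => c1 _ (mem_product.1 (mem_filter.1 hx).1).1]
      refine sum_congr rfl fun r _ => ?_
      rw [sq, ← card_product]
      congr 1
      ext x
      simp only [mem_product, mem_filter]
      constructor
      · rintro ⟨⟨a, b⟩, d, e⟩
        exact ⟨⟨⟨a, d⟩, b.trans e.symm⟩, b⟩
      · rintro ⟨⟨⟨a, d⟩, b⟩, e⟩
        exact ⟨⟨a, e⟩, d, b.symm.trans e⟩
    have h7 : #{x ∈ A ×ˢ A | c x.1 = c x.2} ≤ #{x ∈ A ×ˢ A | ∃ r, ρ x.1 r ∧ ρ x.2 r} :=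
      card_le_card (monotone_filter_right _ fun x hx hc =>
        ⟨c x.1, c2 _ (mem_product.1 hx).1, hc ▸ c2 _ (mem_product.1 hx).2⟩)
    exact_mod_cast this.le.trans h7
  rw [h5]
  refine sq_sum_le_card_mul_sum_sq.trans (mul_le_mul (h T hT.1 hT.2) h6
    (sum_nonneg fun _ _ => sq_nonneg _) ((Nat.cast_nonneg _).trans (h T hT.1 hT.2)))

lemma codegree (A : Finset ℕ) (E : ℕ → ℕ → Prop) [∀ p q, Decidable (E p q)] {c m : ℝ}
    (hA : A.Nonempty) (hc : 0 ≤ c) (hE : c * #A ^ 2 ≤ #{x ∈ A ×ˢ A | E x.1 x.2}) (hm : 0 ≤ m)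
    (h : ∀ u ∈ A, ∀ v ∈ A, u ≠ v → (#{w ∈ A | E u w ∧ E v w} : ℝ) ≤ m) : c ^ 2 * #A ≤ 1 + m := by
  have A0 : (0 : ℝ) < #A := by exact_mod_cast hA.card_pos
  have h1 : (#{x ∈ A ×ˢ A | E x.1 x.2} : ℝ) = ∑ w ∈ A, ∑ u ∈ A, if E u w then (1 : ℝ) else 0 := by
    rw [← sum_boole, sum_product, sum_comm]
  have h2 : ∑ w ∈ A, (∑ u ∈ A, if E u w then (1 : ℝ) else 0) ^ 2 =
      ∑ u ∈ A, ∑ v ∈ A, (#{w ∈ A | E u w ∧ E v w} : ℝ) := by
    simp only [sq, sum_mul_sum, ← sum_boole, ite_zero_mul_ite_zero, mul_one]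
    rw [sum_comm]
    exact sum_congr rfl fun u _ => sum_comm
  have h3 : ∑ u ∈ A, ∑ v ∈ A, (#{w ∈ A | E u w ∧ E v w} : ℝ) ≤ #A * (#A + #A * m) := by
    rw [← nsmul_eq_mul]
    refine sum_le_card_nsmul _ _ _ fun u hu => ?_
    refine (sum_le_sum (g := fun v => (if u = v then (#A : ℝ) else 0) + m) fun v hv => ?_).trans ?_
    · split_ifs with huv
      · exact le_add_of_le_of_nonneg (Nat.cast_le.2 (card_filter_le _ _)) hm
      · rw [zero_add]; exact h u hu v hv huv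
    · rw [sum_add_distrib, sum_ite_eq, if_pos hu, sum_const, nsmul_eq_mul]
  have h4 := (pow_le_pow_left₀ (by positivity) (hE.trans h1.le) 2).trans
    (sq_sum_le_card_mul_sum_sq.trans (mul_le_mul_of_nonneg_left (h2.le.trans h3) A0.le))
  refine le_of_mul_le_mul_right ?_ (pow_pos A0 3)
  nlinarith

open Classical in
lemma wsum_eq {ι : Type*} (T : Finset ι) (A : ι → Set ℝ) (c : ι → ℝ) {L : ℝ}
    (hA : ∀ i ∈ T, MeasurableSet (A i) ∧ A i ⊆ Set.Icc 0 L) :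
    IntegrableOn (fun y => ∑ i ∈ T with y ∈ A i, c i) (Set.Icc 0 L) ∧
      ∫ y in Set.Icc 0 L, ∑ i ∈ T with y ∈ A i, c i = ∑ i ∈ T, c i * volume.real (A i) := by
  have e : (fun y => ∑ i ∈ T with y ∈ A i, c i) =
      fun y => ∑ i ∈ T, (A i).indicator (fun _ => c i) y := by
    funext y
    simp only [sum_filter, Set.indicator_apply]
  have hi : ∀ i ∈ T, Integrable ((A i).indicator fun _ => c i) (volume.restrict (Set.Icc 0 L)) :=
    fun i hi => (integrable_const _).indicator (hA i hi).1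
  rw [e]
  refine ⟨integrable_finsetSum _ hi, ?_⟩
  rw [integral_finsetSum _ hi]
  refine sum_congr rfl fun i hi => ?_
  rw [integral_indicator_const _ (hA i hi).1, smul_eq_mul, mul_comm, Measure.real,
    Measure.restrict_eq_self _ (hA i hi).2, Measure.real]

open Classical in
lemma wsum_le {ι κ : Type*} (T : Finset ι) (A : ι → Set ℝ) (c : ι → ℝ) (T' : Finset κ)
    (A' : κ → Set ℝ) (c' : κ → ℝ) {L b : ℝ} (hL : 0 ≤ L)
    (hA : ∀ i ∈ T, MeasurableSet (A i) ∧ A i ⊆ Set.Icc 0 L)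
    (hA' : ∀ i ∈ T', MeasurableSet (A' i) ∧ A' i ⊆ Set.Icc 0 L)
    (h : ∀ y, ∑ i ∈ T with y ∈ A i, c i ≤ ∑ i ∈ T' with y ∈ A' i, c' i + b) :
    ∑ i ∈ T, c i * volume.real (A i) ≤ ∑ i ∈ T', c' i * volume.real (A' i) + b * L := by
  obtain ⟨h1, h2⟩ := wsum_eq T A c hA
  obtain ⟨h3, h4⟩ := wsum_eq T' A' c' hA'
  have h5 := integral_mono h1 (h3.add (integrable_const b)) h
  simp only [Pi.add_apply] at h5
  rw [integral_add h3 (integrable_const b), h2, h4, integral_const, smul_eq_mul, mul_comm _ b,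
    measureReal_restrict_apply_univ, Real.volume_real_Icc_of_le hL, sub_zero] at h5
  exact h5

lemma real_scale {a : ℝ} (ha : 0 < a) (S : Set ℝ) :
    volume.real ((fun y => a * y) ⁻¹' S) = volume.real S / a := by
  rw [Measure.real, Real.volume_preimage_mul_left ha.ne', ENNReal.toReal_mul,
    ENNReal.toReal_ofReal (abs_nonneg _), abs_of_pos (inv_pos.2 ha), Measure.real, div_eq_inv_mul]

open Classical in
/-- from relations at many common children to many relations below one virtual parent -/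
lemma core {P : ℕ} (A : Finset ℕ) (hA : ∀ p ∈ A, P < p ∧ p ≤ 2 * P) (hne : A.Nonempty) {X ε t : ℝ}
    (hX : 0 < X) (hε : 0 < ε) (ht : 0 < t) (G : ℕ → Set ℝ)
    (hG : ∀ p, MeasurableSet (G p) ∧ G p ⊆ Set.Icc X (2 * X)) (R : ℕ → ℕ → Set (ℝ × ℝ))
    (hR : ∀ p q, MeasurableSet (R p q)) (h1 : #A * (ε * X) ≤ ∑ p ∈ A, volume.real (G p))
    (h2 : ∀ y : ℝ, (#{p ∈ A | p * y ∈ G p} : ℝ) ^ 2 ≤
      t * #{x ∈ A ×ˢ A | x.1 * y ∈ G x.1 ∧ x.2 * y ∈ G x.2 ∧ (x.1 * y, x.2 * y) ∈ R x.1 x.2}) :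
    ∃ z : ℝ, ε ^ 2 / (64 * t) * #A ^ 2 ≤
      #{x ∈ A ×ˢ A | z / x.2 ∈ G x.1 ∧ z / x.1 ∈ G x.2 ∧ (z / x.2, z / x.1) ∈ R x.1 x.2} := by
  have P0 : (0 : ℝ) < P := by
    obtain ⟨p, hp⟩ := hne
    have := hA p hp
    exact_mod_cast (by omega : 0 < P)
  have A0 : (0 : ℝ) < #A := by exact_mod_cast hne.card_pos
  have b1 : ∀ p ∈ A, (P : ℝ) < p := fun p hp => by exact_mod_cast (hA p hp).1
  have b2 : ∀ p ∈ A, (p : ℝ) ≤ 2 * P := fun p hp => by exact_mod_cast (hA p hp).2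
  set S : ℕ × ℕ → Set ℝ := fun x =>
    {y | x.1 * y ∈ G x.1 ∧ x.2 * y ∈ G x.2 ∧ (x.1 * y, x.2 * y) ∈ R x.1 x.2} with hS
  have mG : ∀ p : ℕ, MeasurableSet ((fun y : ℝ => p * y) ⁻¹' G p) := fun p =>
    measurable_const_mul _ (hG p).1
  have mS : ∀ x, MeasurableSet (S x) := fun x => (mG x.1).inter ((mG x.2).inter
    (((measurable_const_mul _).prodMk (measurable_const_mul _)) (hR x.1 x.2)))
  have sub : ∀ p ∈ A, (fun y : ℝ => p * y) ⁻¹' G p ⊆ Set.Icc 0 (2 * X / P) := fun p hp y hy => by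
    have := (hG p).2 hy
    have p0 := P0.trans (b1 p hp)
    have y0 : 0 < y := pos_of_mul_pos_right (hX.trans_le this.1) p0.le
    refine ⟨y0.le, ?_⟩
    rw [le_div_iff₀ P0]
    nlinarith [this.2, b1 p hp]
  have h3 := wsum_le A (fun p => (fun y : ℝ => p * y) ⁻¹' G p) (fun _ => 2 * (ε * #A / 4))
    (A ×ˢ A) S (fun _ => t) (L := 2 * X / P) (b := (ε * #A / 4) ^ 2) (by positivity)
    (fun p hp => ⟨mG p, sub p hp⟩)
    (fun x hx => ⟨mS x, fun y hy => sub _ (mem_product.1 hx).1 hy.1⟩) fun y => by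
      rw [sum_const, sum_const, nsmul_eq_mul, nsmul_eq_mul]
      have := h2 y
      simp only [hS, Set.mem_preimage, Set.mem_ofPred_eq]
      nlinarith [sq_nonneg ((#{p ∈ A | p * y ∈ G p} : ℝ) - ε * #A / 4)]
  have h4 : #A * (ε * X) / (2 * P) ≤ ∑ p ∈ A, volume.real ((fun y : ℝ => p * y) ⁻¹' G p) := by
    refine (div_le_div_of_nonneg_right h1 (by positivity)).trans ?_
    rw [sum_div]
    refine sum_le_sum fun p hp => ?_
    rw [real_scale (P0.trans (b1 p hp))]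
    exact div_le_div_of_nonneg_left measureReal_nonneg (P0.trans (b1 p hp)) (b2 p hp)
  rw [← mul_sum, ← mul_sum] at h3
  by_contra hc
  push Not at hc
  have h5 := wsum_le (A ×ˢ A) (fun x => (fun z : ℝ => ((x.1 : ℝ) * x.2)⁻¹ * z) ⁻¹' S x) (fun _ => 1)
    (∅ : Finset ℕ) (fun _ => ∅) (fun _ => 0) (L := 4 * X * P) (b := ε ^ 2 / (64 * t) * #A ^ 2)
    (by positivity) (fun x hx => ⟨measurable_const_mul _ (mS x), fun z hz => ?_⟩) (by simp)
    fun z => ?_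
  · have h6 : P ^ 2 * ∑ x ∈ A ×ˢ A, volume.real (S x) ≤ ∑ x ∈ A ×ˢ A,
        1 * volume.real ((fun z : ℝ => ((x.1 : ℝ) * x.2)⁻¹ * z) ⁻¹' S x) := by
      rw [mul_sum]
      refine sum_le_sum fun x hx => ?_
      have c1 := b1 _ (mem_product.1 hx).1
      have c2 := b1 _ (mem_product.1 hx).2
      rw [one_mul, real_scale (inv_pos.2 (mul_pos (P0.trans c1) (P0.trans c2))), div_inv_eq_mul,
        mul_comm, sq]
      exact mul_le_mul_of_nonneg_left (mul_le_mul c1.le c2.le P0.le (P0.trans c1).le)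
        measureReal_nonneg
    rw [sum_empty, zero_add] at h5
    have h7 := mul_le_mul_of_nonneg_left (h6.trans h5) ht.le
    have h8 := mul_le_mul_of_nonneg_left ((mul_le_mul_of_nonneg_left h4 (by positivity)).trans h3)
      (sq_nonneg (P : ℝ))
    have e1 : t * (ε ^ 2 / (64 * t) * #A ^ 2 * (4 * X * P)) = ε ^ 2 * #A ^ 2 * X * P / 16 := by
      field_simp; ring
    have e2 : (P : ℝ) ^ 2 * (2 * (ε * #A / 4) * (#A * (ε * X) / (2 * P))) =
        ε ^ 2 * #A ^ 2 * X * P / 4 := by field_simp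
    have e3 : (P : ℝ) ^ 2 * ((ε * #A / 4) ^ 2 * (2 * X / P)) = ε ^ 2 * #A ^ 2 * X * P / 8 := by
      field_simp; ring
    have : 0 < ε ^ 2 * #A ^ 2 * X * P := by positivity
    rw [mul_add, e2, e3] at h8
    rw [e1] at h7
    nlinarith
  · have c1 := b1 _ (mem_product.1 hx).1
    have c2 := b1 _ (mem_product.1 hx).2
    have c3 := b2 _ (mem_product.1 hx).2
    have := (hG _).2 hz.1
    rw [show x.1 * (((x.1 : ℝ) * x.2)⁻¹ * z) = z / x.2 by
      have := (P0.trans c1).ne'; field_simp, Set.mem_Icc, le_div_iff₀ (P0.trans c2),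
      div_le_iff₀ (P0.trans c2)] at this
    constructor <;> nlinarith [this.1, this.2]
  · rw [filter_empty, sum_empty, zero_add, sum_const, nsmul_eq_mul, mul_one]
    refine le_of_eq_of_le (congrArg _ (congrArg card (filter_congr fun x hx => ?_))) (hc z).le
    have c1 := (P0.trans (b1 _ (mem_product.1 hx).1)).ne'
    have c2 := (P0.trans (b1 _ (mem_product.1 hx).2)).ne'
    simp only [hS, Set.mem_preimage, Set.mem_ofPred_eq]
    rw [show x.1 * (((x.1 : ℝ) * x.2)⁻¹ * z) = z / x.2 by field_simp,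
      show x.2 * (((x.1 : ℝ) * x.2)⁻¹ * z) = z / x.1 by field_simp]

end Pool.Agent.Lib.MP_028aa5_nt
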