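import Pool.Agent.Lib.MP_028aa5_nt.Cell

/-! Few primes `w` have `w^k γ` close to a null set away from the rationals. -/

namespace Pool.Agent.Lib.MP_028aa5_nt

open Finset MeasureTheory

lemma primes_short {z : ℕ} (hz : 2 ≤ z) (S : Finset ℕ) (hS : ∀ w ∈ S, w.Prime ∧ z < w) {L : ℝ}
    (hL : 0 ≤ L) (h : ∀ a ∈ S, ∀ b ∈ S, (b : ℝ) - a ≤ L) :
    (#S : ℝ) ≤ 2 * (L + 1) / Real.log z + z ^ 6 := by
  have l0 : 0 < Real.log z := Real.log_pos (by exact_mod_cast hz)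
  rcases S.eq_empty_or_nonempty with rfl | hne
  · simp only [card_empty, Nat.cast_zero]; positivity
  obtain ⟨u, hu⟩ : ∃ u, S.min' hne = u + 1 :=
    Nat.exists_eq_succ_of_ne_zero (hS _ (S.min'_mem hne)).1.ne_zero
  have h1 := sieve_q (q := 1) one_ne_zero hz (Ioc u (u + 1 + ⌊L⌋₊)) (fun _ => 1)
    (fun _ _ => zero_le_one) (Y := ⌊L⌋₊ + 1) (R := 1) (by positivity) zero_le_one
    fun D _ _ _ a ha => by
      have := card_ap ha (show u ≤ u + 1 + ⌊L⌋₊ by omega)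
      rwa [show ((u + 1 + ⌊L⌋₊ : ℕ) : ℝ) - u = ⌊L⌋₊ + 1 by push_cast; ring, card_eq_sum_ones,
        Nat.cast_sum, Nat.cast_one] at this
  rw [sum_const, nsmul_eq_mul, mul_one, Nat.primeFactors_one, prod_empty, mul_one, one_mul] at h1
  have h2 : S ⊆ (Ioc u (u + 1 + ⌊L⌋₊)).filter fun n => n.Prime ∧ z < n := fun b hb => by
    have h2 := S.min'_le b hb
    have h3 := h _ (S.min'_mem hne) b hb
    have h4 : b - S.min' hne ≤ ⌊L⌋₊ := Nat.le_floor (by rwa [Nat.cast_sub h2])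
    exact mem_filter.2 ⟨mem_Ioc.2 ⟨by omega, by omega⟩, hS b hb⟩
  refine (Nat.cast_le.2 (card_le_card h2)).trans (h1.trans ?_)
  gcongr
  exact Nat.floor_le hL

lemma cnt_small {k z P : ℕ} (hk : 1 ≤ k) (hz : 2 ≤ z) (hzP : z ≤ P) {θ η B ρ : ℝ} (hη : 0 < η)
    (h1 : η / P ^ k ≤ |θ|) (h2 : |θ| ≤ B / P ^ k) (ρ0 : 0 ≤ ρ) (ρ1 : ρ ≤ 1) (t : ℝ) :
    (cnt k P θ t ρ : ℝ) ≤
      (2 * (2 ^ k * B + 2) + 1) * (2 * (2 * ρ * P / η + 1) / Real.log z + z ^ 6) := by
  classical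
  have P0 : (0 : ℝ) < P := by exact_mod_cast (by omega : 0 < P)
  have B0 : 0 ≤ B := by
    have := (abs_nonneg _).trans h2
    rwa [le_div_iff₀ (by positivity), zero_mul] at this
  have l0 : 0 < Real.log z := Real.log_pos (by exact_mod_cast hz)
  unfold cnt
  set S := (Ioc P (2 * P)).filter fun w : ℕ => w.Prime ∧ Nr (w ^ k * θ - t) ρ with hS
  have h3 : ∀ w ∈ S, ∃ m : ℤ, |w ^ k * θ - Int.fract t - m| ≤ ρ := fun w hw => by
    obtain ⟨m, hm⟩ := (mem_filter.1 hw).2.2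
    refine ⟨m + ⌊t⌋, le_of_eq_of_le ?_ hm⟩
    rw [Int.fract]
    congr 1
    push_cast
    ring
  choose! m hm using h3
  refine (card_le_fibers S (Icc (-(⌊2 ^ k * B + 2⌋₊ : ℤ)) ⌊2 ^ k * B + 2⌋₊) m
    (fun w hw => mem_int_Icc ?_) fun b _ => primes_short hz _ (fun w hw => ?_)
      (L := 2 * ρ * P / η) (by positivity) fun x hx y hy => ?_).trans
    (mul_le_mul_of_nonneg_right (card_int_Icc (by positivity)) (by positivity))
  · have a1 : (w : ℝ) ≤ 2 * P := by exact_mod_cast (mem_Ioc.1 (mem_filter.1 hw).1).2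
    have a2 : |w ^ k * θ| ≤ 2 ^ k * B := by
      rw [abs_mul, abs_of_nonneg (by positivity)]
      refine (mul_le_mul (pow_le_pow_left₀ (by positivity) a1 k) h2 (abs_nonneg _)
        (by positivity)).trans (le_of_eq ?_)
      rw [mul_pow]
      field_simp
    have a3 := abs_le.1 (hm w hw)
    have a4 := abs_le.1 a2
    rw [abs_le]
    constructor <;> linarith [Int.fract_nonneg t, Int.fract_lt_one t]
  · have := mem_filter.1 (mem_filter.1 hw).1
    exact ⟨this.2.1, by have := (mem_Ioc.1 this.1).1; omega⟩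
  · rcases le_or_gt (y : ℝ) x with h | h
    · exact (sub_nonpos.2 h).trans (by positivity)
    obtain ⟨k, rfl⟩ := Nat.exists_eq_add_of_le' hk
    have a1 := hm x (mem_filter.1 hx).1
    have a2 := hm y (mem_filter.1 hy).1
    rw [(mem_filter.1 hx).2] at a1
    rw [(mem_filter.1 hy).2] at a2
    have a3 := (abs_sub _ _).trans (add_le_add a2 a1)
    have a4 : (P : ℝ) ≤ x := by exact_mod_cast (mem_Ioc.1 (mem_filter.1 (mem_filter.1 hx).1).1).1.le
    have a5 : (y - x : ℝ) * P ^ k ≤ y ^ (k + 1) - x ^ (k + 1) := by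
      have b1 : (P : ℝ) ^ k ≤ x ^ k := pow_le_pow_left₀ P0.le a4 k
      have b2 : (x : ℝ) ^ k ≤ y ^ k := pow_le_pow_left₀ (by positivity) h.le k
      rw [pow_succ, pow_succ]
      nlinarith [mul_le_mul_of_nonneg_left b1 (sub_pos.2 h).le,
        mul_le_mul_of_nonneg_left b2 (Nat.cast_nonneg y)]
    have a6 : 0 ≤ (y - x : ℝ) * P ^ k := mul_nonneg (sub_pos.2 h).le (by positivity)
    rw [show y ^ (k + 1) * θ - Int.fract t - b - (x ^ (k + 1) * θ - Int.fract t - b) =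
      (y ^ (k + 1) - x ^ (k + 1)) * θ by ring, abs_mul, abs_of_nonneg (a6.trans a5)] at a3
    have a7 := (mul_le_mul a5 h1 (by positivity) (a6.trans a5)).trans a3
    rw [show (y - x : ℝ) * P ^ k * (η / P ^ (k + 1)) = (y - x) * η / P by rw [pow_succ]; field_simp,
      div_le_iff₀ P0] at a7
    rw [le_div_iff₀ hη]
    linarith

lemma cover {C : Set ℝ} (hC : IsCompact C) (h0 : volume C = 0) {ε : ℝ} (hε : 0 < ε) :
    ∃ r > 0, ∀ ρ, 0 < ρ → ρ ≤ r → ∃ Θ : Finset ℝ, #Θ * ρ ≤ ε ∧ ∀ α ∈ C, ∃ θ ∈ Θ, |α - θ| ≤ ρ := by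
  have h1 := tendsto_measure_cthickening_of_isCompact (μ := volume) hC
  rw [h0] at h1
  obtain ⟨r, r0, hr⟩ := Metric.eventually_nhds_iff.1
    (h1.eventually (gt_mem_nhds (ENNReal.ofReal_pos.2 hε)))
  refine ⟨r / 2, by positivity, fun ρ ρ0 ρ1 => ?_⟩
  obtain ⟨B, hB⟩ := hC.isBounded.exists_norm_le
  have fin : ((fun α => ⌊α / ρ⌋) '' C).Finite := by
    refine (Set.finite_Icc ⌊-B / ρ⌋ ⌊B / ρ⌋).subset ?_
    rintro _ ⟨α, hα, rfl⟩
    have := abs_le.1 (hB α hα)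
    exact ⟨Int.floor_mono (by gcongr; exact this.1), Int.floor_mono (by gcongr; exact this.2)⟩
  have cell : ∀ α : ℝ, α ∈ Set.Ico (⌊α / ρ⌋ * ρ) ((⌊α / ρ⌋ + 1) * ρ) := fun α =>
    ⟨(le_div_iff₀ ρ0).1 (Int.floor_le _), (div_lt_iff₀ ρ0).1 (Int.lt_floor_add_one _)⟩
  refine ⟨fin.toFinset.image fun j : ℤ => j * ρ, ?_, fun α hα =>
    ⟨_, mem_image_of_mem _ (fin.mem_toFinset.2 ⟨α, hα, rfl⟩), ?_⟩⟩
  · have h2 : volume (⋃ j ∈ fin.toFinset, Set.Ico (j * ρ) ((j + 1) * ρ)) =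
        ENNReal.ofReal (fin.toFinset.card * ρ) := by
      rw [measure_biUnion_finset (fun i _ j _ hij => ?_) fun _ _ => measurableSet_Ico]
      · simp only [Real.volume_Ico, add_mul, one_mul, add_sub_cancel_left, sum_const, nsmul_eq_mul]
        rw [ENNReal.ofReal_mul (Nat.cast_nonneg _), ENNReal.ofReal_natCast]
      · refine Set.disjoint_left.2 fun x hi hj => hij ?_
        rw [← (Int.floor_eq_iff (a := x / ρ)).2 ⟨(le_div_iff₀ ρ0).2 hi.1, (div_lt_iff₀ ρ0).2 hi.2⟩,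
          (Int.floor_eq_iff (a := x / ρ)).2 ⟨(le_div_iff₀ ρ0).2 hj.1, (div_lt_iff₀ ρ0).2 hj.2⟩]
    have h3 : (⋃ j ∈ fin.toFinset, Set.Ico (j * ρ) ((j + 1) * ρ)) ⊆ Metric.cthickening ρ C := by
      refine Set.iUnion₂_subset fun j hj x hx => ?_
      obtain ⟨α, hα, rfl⟩ := fin.mem_toFinset.1 hj
      refine Metric.mem_cthickening_of_dist_le x α ρ C hα ?_
      rw [Real.dist_eq, abs_le]
      constructor <;> linarith [hx.1, hx.2, (cell α).1, (cell α).2]
    have h4 := (measure_mono h3).trans_lt (hr (y := ρ) (by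
      rw [Real.dist_eq, sub_zero, abs_of_pos ρ0]; linarith))
    rw [h2, ENNReal.ofReal_lt_ofReal_iff hε] at h4
    exact (mul_le_mul_of_nonneg_right (Nat.cast_le.2 card_image_le) ρ0.le).trans h4.le
  · rw [abs_le]
    constructor <;> linarith [(cell α).1, (cell α).2]

lemma card_le_cells {k P : ℕ} {γ ρ U : ℝ} (S : Finset ℕ) (Θ : Finset ℝ) (c : ℝ)
    (hS : ∀ w ∈ S, w ∈ Ioc P (2 * P) ∧ w.Prime ∧ ∃ θ ∈ Θ, Nr (w ^ k * γ - c * θ) ρ)
    (hU : ∀ θ, (cnt k P γ θ ρ : ℝ) ≤ U) : (#S : ℝ) ≤ #Θ * U := by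
  classical
  choose! f hf using fun w hw => (hS w hw).2.2
  refine card_le_fibers S Θ f (fun w hw => (hf w hw).1) fun θ _ => le_trans ?_ (hU (c * θ))
  unfold cnt
  refine Nat.cast_le.2 (card_le_card fun w hw => ?_)
  obtain ⟨h1, rfl⟩ := mem_filter.1 hw
  exact mem_filter.2 ⟨(hS w h1).1, (hS w h1).2.1, (hf w h1).2⟩

/-- `α` is not close to a rational number of denominator at most `Q` -/
def Far (Q : ℕ) (η α : ℝ) : Prop := ∀ q : ℕ, 1 ≤ q → q ≤ Q → ¬Nr (q * α) η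

theorem few_primes {k : ℕ} (hk : 1 ≤ k) : ∃ T : ℕ, 2 ≤ T ∧ ∀ (s : ℕ) (C : Set ℝ) (ε : ℝ), 1 ≤ s →
    IsCompact C → volume C = 0 → 0 < ε → ∃ Q : ℕ, ∀ η0 > 0, ∃ η > 0, ∃ z0 : ℕ, ∀ z ≥ z0, ∀ γ : ℝ,
      ∀ S : Finset ℕ, (∀ w ∈ S, w ∈ Ioc (z ^ T) (2 * z ^ T) ∧ w.Prime ∧
        ∃ α ∈ C, Far Q η0 α ∧ Nr (w ^ k * γ - s * α) η) →
      (#S : ℝ) ≤ ε * ((z ^ T : ℕ) / Real.log z) := by
  obtain ⟨T, T9, hT⟩ := cell hk
  refine ⟨T, by omega, fun s C ε s1 hC h0 hε => ?_⟩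
  have s0 : (0 : ℝ) < s := by exact_mod_cast s1
  have s1' : (1 : ℝ) ≤ s := by exact_mod_cast s1
  obtain ⟨r, r0, hr⟩ := cover hC h0 (ε := ε / (1920 * s)) (by positivity)
  obtain ⟨M, hM⟩ := exists_nat_ge (2 + 1 / r)
  have M2 : (2 : ℝ) ≤ M := le_trans (le_add_of_nonneg_right (by positivity)) hM
  obtain ⟨Θ, t1, t2⟩ := hr (1 / (32 * M * s)) (by positivity) (by
    rw [div_le_iff₀ (by positivity)]
    have : 1 / r ≤ M := by linarith
    rw [div_le_iff₀ r0] at this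
    nlinarith [mul_le_mul_of_nonneg_left s1' (show 0 ≤ M * r by positivity)])
  obtain ⟨Q, B, z1, B0, hQ⟩ := hT M (by exact_mod_cast M2)
  refine ⟨Q * s, fun η0 e0 => ?_⟩
  set K2 : ℝ := 2 * (2 ^ k * B + 2) + 1 with hK
  have K0 : 0 < K2 := by positivity
  set η1 := η0 / 2 ^ (k + 1) with h1
  have e1 : 0 < η1 := by positivity
  set W : ℝ := (Q + 1) * s with hW
  have W0 : 0 < W := by positivity
  obtain ⟨r', r0', hr'⟩ := cover hC h0 (ε := ε * η1 / (16 * K2 * W)) (by positivity)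
  set ρ := min r' (1 / (2 * W)) with hρ
  have ρ0 : 0 < ρ := lt_min r0' (by positivity)
  obtain ⟨Θ', t3, t4⟩ := hr' ρ ρ0 (min_le_left _ _)
  obtain ⟨z2, hz2⟩ := exists_nat_ge (6 * #Θ' * K2 / ε)
  refine ⟨min (min (1 / (32 * M)) ρ) (η0 / (2 * W)), by positivity, 2 + z1 + z2,
    fun z hz γ S hS => ?_⟩
  set η := min (min (1 / (32 * (M : ℝ))) ρ) (η0 / (2 * W)) with hη
  set P := z ^ T with hP
  have zz : 2 ≤ z := by omega
  have zP : z ≤ P := Nat.le_self_pow (by omega) z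
  have P0 : (0 : ℝ) < P := by exact_mod_cast (by omega : 0 < P)
  have z1' : (1 : ℝ) < z := by exact_mod_cast zz
  have l0 : 0 < Real.log z := Real.log_pos z1'
  rcases hQ z (by omega) γ with ⟨q, q1, q2, m, hm⟩ | h
  · rcases S.eq_empty_or_nonempty with rfl | ⟨w0, hw0⟩
    · simp only [card_empty, Nat.cast_zero]; positivity
    have qW : (q : ℝ) * s ≤ W := by
      have : (q : ℝ) ≤ Q := by exact_mod_cast q2
      rw [hW]; gcongr; linarith
    have qW' : (q : ℝ) ≤ W := (le_mul_of_one_le_right (by positivity) s1').trans qW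
    have key : ∀ (w : ℕ) (α : ℝ), Nr (w ^ k * γ - s * α) η →
        Nr (w ^ k * (q * γ - m) - q * s * α) (W * η) := fun w α h => by
      obtain ⟨j, hj⟩ := (h.nat_mul q).mono (mul_le_mul_of_nonneg_right qW' h.nonneg)
      refine ⟨j - w ^ k * m, le_of_eq_of_le ?_ hj⟩
      congr 1
      push_cast
      ring
    have low : η1 / P ^ k ≤ |q * γ - m| := by
      by_contra hc
      obtain ⟨w1, -, α, -, a2, a3⟩ := hS w0 hw0
      have a4 : (w0 : ℝ) ≤ 2 * P := by exact_mod_cast (mem_Ioc.1 w1).2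
      have a5 : |w0 ^ k * (q * γ - m)| ≤ η0 / 2 := by
        rw [abs_mul, abs_of_nonneg (by positivity)]
        refine (mul_le_mul (pow_le_pow_left₀ (by positivity) a4 k) (not_le.1 hc).le (abs_nonneg _)
          (by positivity)).trans (le_of_eq ?_)
        rw [mul_pow, h1, pow_succ]
        field_simp
      have a6 := (Nr.of_abs a5).sub (key w0 α a3)
      rw [sub_sub_cancel, ← Nat.cast_mul] at a6
      refine a2 (q * s) (Nat.mul_pos q1 s1) (Nat.mul_le_mul_right _ q2) (a6.mono ?_)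
      have : η ≤ η0 / (2 * W) := min_le_right _ _
      rw [le_div_iff₀ (by positivity)] at this
      linarith
    have ρ1 : 2 * W * ρ ≤ 1 := by
      have : ρ ≤ 1 / (2 * W) := min_le_right _ _
      rwa [le_div_iff₀' (by positivity)] at this
    refine (card_le_cells S Θ' (q * s) (fun w hw => ?_)
      (cnt_small hk zz zP e1 low hm (ρ := 2 * W * ρ) (by positivity) ρ1)).trans ?_
    · obtain ⟨w1, w2, α, a1, -, a3⟩ := hS w hw
      obtain ⟨θ, b1, b2⟩ := t4 α a1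
      refine ⟨w1, w2, θ, b1, ?_⟩
      have b3 : |q * s * (α - θ)| ≤ W * ρ := by
        rw [abs_mul, abs_of_nonneg (by positivity)]
        exact mul_le_mul qW b2 (abs_nonneg _) W0.le
      have := (key w α a3).add (Nr.of_abs b3)
      rw [mul_sub (q * s : ℝ), sub_add_sub_cancel] at this
      refine this.mono ?_
      have : η ≤ ρ := (min_le_left _ _).trans (min_le_right _ _)
      nlinarith
    · have c1 : #Θ' * (K2 * (2 * (2 * (2 * W * ρ) * P / η1))) ≤ ε / 2 * P := by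
        rw [le_div_iff₀ (by positivity)] at t3
        rw [show #Θ' * (K2 * (2 * (2 * (2 * W * ρ) * P / η1))) =
          #Θ' * ρ * (16 * K2 * W) / η1 / 2 * P by ring]
        gcongr
        rwa [div_le_iff₀ e1]
      have c2 : #Θ' * (K2 * (2 + z ^ 6 * Real.log z)) ≤ ε / 2 * P := by
        have d1 : (z : ℝ) ^ 8 ≤ P := by exact_mod_cast Nat.pow_le_pow_right (by omega) (by omega)
        have d2 : 2 + z ^ 6 * Real.log z ≤ 3 * z ^ 7 := by
          have := mul_le_mul_of_nonneg_left (Real.log_le_self (show (0 : ℝ) ≤ z by positivity))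
            (show (0 : ℝ) ≤ z ^ 6 by positivity)
          have := one_le_pow₀ (n := 7) z1'.le
          nlinarith
        have d3 : 6 * #Θ' * K2 ≤ z * ε := by
          rw [← div_le_iff₀ hε]
          exact hz2.trans (by exact_mod_cast (by omega : z2 ≤ z))
        have d4 := mul_le_mul_of_nonneg_right d3 (show (0 : ℝ) ≤ z ^ 7 by positivity)
        have d5 := mul_le_mul_of_nonneg_left d2 (show (0 : ℝ) ≤ #Θ' * K2 by positivity)
        nlinarith [mul_le_mul_of_nonneg_left d1 hε.le]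
      rw [← mul_div_assoc, le_div_iff₀ l0, ← hK]
      refine le_of_eq_of_le ?_ ((add_le_add c1 c2).trans (le_of_eq (by ring)))
      field_simp
      ring
  · refine (card_le_cells S Θ s (fun w hw => ?_) h).trans ?_
    · obtain ⟨w1, w2, α, a1, -, a3⟩ := hS w hw
      obtain ⟨θ, b1, b2⟩ := t2 α a1
      refine ⟨w1, w2, θ, b1, ?_⟩
      have b3 : |s * (α - θ)| ≤ 1 / (32 * M) := by
        rw [abs_mul, Nat.abs_cast]
        exact (mul_le_mul_of_nonneg_left b2 s0.le).trans (le_of_eq (by field_simp))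
      have := a3.add (Nr.of_abs b3)
      rw [mul_sub (s : ℝ), sub_add_sub_cancel] at this
      refine this.mono ?_
      have : η ≤ 1 / (32 * M) := (min_le_left _ _).trans (min_le_left _ _)
      rw [show 1 / (16 * (M : ℝ)) = 1 / (32 * M) + 1 / (32 * M) by field_simp; norm_num]
      linarith
    · rw [le_div_iff₀ (by positivity)] at t1
      rw [show #Θ * (60 * ((P : ℝ) / M / Real.log z)) =
        #Θ * (1 / (32 * M * s)) * (1920 * s) * (P / Real.log z) by field_simp; ring]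
      exact mul_le_mul_of_nonneg_right t1 (by positivity)

end Pool.Agent.Lib.MP_028aa5_nt
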