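import Pool.Agent.Lib.MP_028aa5_nt.TK
import Pool.Agent.Lib.MP_028aa5_nt.Primes

/-! The key estimate: few short intervals correlate with a phase whose top coefficient is
in a null set and far from the rationals of small denominator. -/

namespace Pool.Agent.Lib.MP_028aa5_nt

open Finset MeasureTheory

lemma bez {u v k : ℕ} (hu : u.Prime) (hv : v.Prime) (h : u ≠ v) (hk : 1 ≤ k) :
    ∃ σ τ : ℕ, σ ≤ v ^ k ∧ τ ≤ u ^ k ∧ u ^ k * σ = 1 + v ^ k * τ := by
  have h1 : 1 < v ^ k := Nat.one_lt_pow (by omega) hv.one_lt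
  obtain ⟨σ, h2, h3⟩ := Nat.exists_mul_mod_eq_one_of_coprime
    (Nat.Coprime.pow k k ((Nat.coprime_primes hu hv).2 h)) h1
  have h4 := Nat.mod_add_div (u ^ k * σ) (v ^ k)
  rw [h3] at h4
  refine ⟨σ, u ^ k * σ / v ^ k, h2.le, Nat.div_le_of_le_mul ?_, h4.symm⟩
  rw [mul_comm]
  exact Nat.mul_le_mul_right _ h2.le

lemma lift {k s B u v : ℕ} {δ : ℝ} (a : ℕ → ℝ) (hu : u.Prime) (hv : v.Prime) (h : u ≠ v)
    (hk : 1 ≤ k) (uB : u ≤ B) (vB : v ≤ B) : ∃ γ : ℝ, ∀ w : ℕ,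
      Nr (s * (u ^ k * a w - w ^ k * a u)) δ → Nr (s * (v ^ k * a w - w ^ k * a v)) δ →
      Nr (w ^ k * γ - s * a w) (2 * B ^ k * δ) := by
  obtain ⟨σ, τ, h1, h2, h3⟩ := bez hu hv h hk
  refine ⟨s * (σ * a u - τ * a v), fun w h4 h5 => ?_⟩
  have h6 := (h5.nat_mul τ).sub (h4.nat_mul σ)
  have h7 : (u : ℝ) ^ k * σ = 1 + v ^ k * τ := by exact_mod_cast h3
  have h8 : (σ : ℝ) ≤ B ^ k := by exact_mod_cast h1.trans (Nat.pow_le_pow_left vB k)
  have h9 : (τ : ℝ) ≤ B ^ k := by exact_mod_cast h2.trans (Nat.pow_le_pow_left uB k)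
  convert h6.mono (show _ ≤ 2 * B ^ k * δ by nlinarith [h4.nonneg]) using 1
  linear_combination (s * a w) * h7

/-- the pair of end points of the short interval at `x` -/
noncomputable def kap (H x : ℝ) : ℕ × ℕ := (⌊x⌋₊, ⌊x + H⌋₊)

lemma meas_kap (H : ℝ) : Measurable (kap H) :=
  Nat.measurable_floor.prodMk (Nat.measurable_floor.comp (measurable_add_const H))

/-- the points of `[X, 2X]` whose short interval lies in `S` -/
def Gs (X H : ℝ) (S : Set (ℕ × ℕ)) : Set ℝ := Set.Icc X (2 * X) ∩ kap H ⁻¹' S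

lemma meas_Gs (X H : ℝ) (S : Set (ℕ × ℕ)) : MeasurableSet (Gs X H S) :=
  measurableSet_Icc.inter (meas_kap H (Set.to_countable S).measurableSet)

lemma block {k A P : ℕ} (hk : 1 ≤ k) (hW : WeylSt k A) {ε H X η m : ℝ} (hε : 0 < ε) (h1 : ε ≤ 1)
    (hX : 0 < X) (hne : (blk P).Nonempty) (hH : 2 * (P : ℝ) ≤ H) (Good : ℝ → Prop) (hm : 0 ≤ m)
    (hS : ∀ (γ : ℝ) (S : Finset ℕ), (∀ w ∈ S, w ∈ blk P ∧ ∃ α, Good α ∧
      Nr (w ^ k * γ - ⌊(2 / (ε / 8) ^ 2) ^ A⌋₊.factorial * α) η) → (#S : ℝ) ≤ m)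
    (hη : 4 * (2 * P) ^ k * (⌊(2 / (ε / 8) ^ 2) ^ A⌋₊.factorial * (2 / (ε / 8) ^ 2) ^ A) * P ≤ η * H)
    {f : ℕ → ℂ} (hf : ∀ n, ‖f n‖ ≤ 1) (g : ℕ × ℕ → ℝ → ℝ) (α : ℕ × ℕ → ℝ) (Φ : Set (ℕ × ℕ))
    (hΦ : ∀ j ∈ Φ, PD k (α j) (g j) ∧ Good (α j))
    (h : #(blk P) * (ε / 4 * X) ≤ ∑ p ∈ blk P, volume.real (Gs X H {j | j ∈ Φ ∧ ε * H / (2 * p) ≤
      ‖∑ m ∈ Ioc (j.1 / p) (j.2 / p), f m * e (g j (p * m))‖})) :
    ((ε / 4) ^ 2 / (64 * (2 / (ε / 8) ^ 2))) ^ 2 * #(blk P) ≤ 1 + m := by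
  classical
  set R : ℝ := 2 / (ε / 8) ^ 2 with hR
  set s := ⌊R ^ A⌋₊.factorial with hs
  have hA : ∀ p ∈ blk P, P < p ∧ p ≤ 2 * P := fun p hp => mem_Ioc.1 (mem_filter.1 hp).1
  have P0 : (0 : ℝ) < P := by
    obtain ⟨p, hp⟩ := hne
    have := hA p hp
    exact_mod_cast (by omega : 0 < P)
  have R0 : 0 < R := by positivity
  have H0 : 0 < H := by linarith
  set N := ⌈H / P⌉₊ + 1 with hN
  have N1 : H / P + 1 ≤ N := by rw [hN]; push_cast; linarith [Nat.le_ceil (H / P)]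
  have N2 : (N : ℝ) ≤ 2 * (H / P) := by
    have := Nat.ceil_lt_add_one (show 0 ≤ H / P by positivity)
    have : 2 ≤ H / P := by rwa [le_div_iff₀ P0]
    rw [hN]; push_cast; linarith
  have N0 : (1 : ℝ) ≤ N := le_trans (le_add_of_nonneg_left (by positivity)) N1
  set δ : ℝ := s * (R ^ A / N ^ k) with hδ
  have δ0 : 0 ≤ δ := by positivity
  set G : ℕ → Set ℝ := fun p => Gs X H {j | j ∈ Φ ∧ ε * H / (2 * p) ≤
    ‖∑ m ∈ Ioc (j.1 / p) (j.2 / p), f m * e (g j (p * m))‖} with hG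
  set Rl : ℕ → ℕ → Set (ℝ × ℝ) := fun p q => Prod.map (kap H) (kap H) ⁻¹'
    {j | Nr (s * (p ^ k * α j.1 - q ^ k * α j.2)) (δ + δ)} with hRl
  obtain ⟨z, hz⟩ := core (blk P) hA hne hX (by positivity : 0 < ε / 4) R0 G
    (fun p => ⟨meas_Gs X H _, Set.inter_subset_left⟩) Rl
    (fun p q => (meas_kap H).prodMap (meas_kap H) (Set.to_countable _).measurableSet) h
    fun y => by
      refine (cluster _ (fun p q => Nr (s * (p ^ k * α (kap H (p * y)) - q ^ k * α (kap H (q * y)))) δ)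
        (fun p => .of_abs (by simpa using δ0)) (fun p q h => by convert h.neg using 1; ring)
        (t := R) fun T hT h' => ?_).trans (mul_le_mul_of_nonneg_left ?_ R0.le)
      · refine few_phases (c := ⌊y⌋₊) (N := N) hW (by omega) (by positivity) (by linarith) T hf
          (fun p => ⌊p * y + H⌋₊ / p) _ (fun p x => g (kap H (p * y)) (0 + p * x)) (fun p hp => ?_) h'
        obtain ⟨a1, ⟨a2, -⟩, a3, a4⟩ := mem_filter.1 (hT hp)
        have b1 : (P : ℝ) < p := by exact_mod_cast (hA p a1).1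
        have b2 : (p : ℝ) ≤ 2 * P := by exact_mod_cast (hA p a1).2
        have p0 : (0 : ℝ) < p := P0.trans b1
        have y0 : 0 ≤ y := ((mul_pos_iff_of_pos_left p0).1 (hX.trans_le a2)).le
        refine ⟨?_, (hΦ _ a3).1.affine 0 p, ?_⟩
        · rw [← Nat.floor_div_natCast]
          refine Nat.floor_le_of_le ?_
          have := Nat.lt_floor_add_one y
          have : H / p ≤ H / P := by gcongr
          rw [add_div, mul_div_cancel_left₀ _ p0.ne']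
          push_cast
          linarith
        · simp only [kap, ← Nat.floor_div_natCast (p * y), mul_div_cancel_left₀ _ p0.ne'] at a4
          simp only [zero_add, kap]
          refine le_trans ?_ a4
          rw [le_div_iff₀ (by positivity)]
          calc ε / 8 * N * (2 * p) ≤ ε / 8 * (2 * (H / P)) * (2 * (2 * P)) := by gcongr
            _ = ε * H := by field_simp; norm_num
      · refine Nat.cast_le.2 (card_le_card fun x hx => ?_)
        obtain ⟨a1, r, a2, a3⟩ := mem_filter.1 hx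
        rw [mem_product, mem_filter, mem_filter] at a1
        refine mem_filter.2 ⟨mem_product.2 ⟨a1.1.1, a1.2.1⟩, a1.1.2, a1.2.2, ?_⟩
        have := a2.sub a3
        rwa [← mul_sub, sub_sub_sub_cancel_right] at this
  refine codegree (blk P) (fun p q => z / q ∈ G p ∧ z / p ∈ G q ∧ (z / q, z / p) ∈ Rl p q) hne (by positivity) (by convert hz) hm fun u hu v hv huv => ?_
  obtain ⟨γ, hγ⟩ := lift (s := s) (δ := δ + δ) (fun w => α (kap H (z / w))) (mem_filter.1 hu).2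
    (mem_filter.1 hv).2 huv hk (hA u hu).2 (hA v hv).2
  refine hS γ _ fun w hw => ?_
  obtain ⟨a1, a2, a3⟩ := mem_filter.1 hw
  refine ⟨a1, _, (hΦ _ a2.1.2.1).2, (hγ w a2.2.2 a3.2.2).mono ?_⟩
  have a4 : H / P ≤ N ^ k := by linarith [le_self_pow₀ N0 (by omega : k ≠ 0)]
  rw [div_le_iff₀ P0] at a4
  refine le_of_mul_le_mul_right (le_trans ?_ hη) H0
  calc 2 * ((2 * P : ℕ) : ℝ) ^ k * (δ + δ) * H ≤ 2 * ((2 * P : ℕ) : ℝ) ^ k * (δ + δ) * (N ^ k * P) := by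
        gcongr
    _ = _ := by rw [hδ]; push_cast; field_simp; ring

lemma harm (i0 : ℕ) (L : ℝ) : ∃ n, 0 < n ∧ L ≤ ∑ i ∈ range n, 1 / ((i + i0 : ℕ) : ℝ) := by
  have h := (not_summable_iff_tendsto_nat_atTop_of_nonneg fun i => by positivity).1
    (mt (summable_nat_add_iff (f := fun n : ℕ => 1 / (n : ℝ)) i0).1
      Real.not_summable_one_div_natCast)
  exact ((Filter.eventually_gt_atTop 0).and (h.eventually_ge_atTop L)).exists

lemma blk_disj {T : ℕ} (hT : 1 ≤ T) (i0 : ℕ) (S : Set ℕ) :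
    S.PairwiseDisjoint fun i => blk ((2 ^ (i + i0)) ^ T) := by
  have : ∀ i j, i < j → Disjoint (blk ((2 ^ (i + i0)) ^ T)) (blk ((2 ^ (j + i0)) ^ T)) :=
    fun i j h => disjoint_left.2 fun p h1 h2 => by
      have a1 := (mem_Ioc.1 (mem_filter.1 h1).1).2
      have a2 := (mem_Ioc.1 (mem_filter.1 h2).1).1
      rw [← pow_mul, ← pow_succ'] at a1
      rw [← pow_mul] at a2
      have := (Nat.pow_lt_pow_iff_right one_lt_two).1 (a2.trans_le a1)
      nlinarith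
  intro i _ j _ h
  exact h.lt_or_gt.elim (this i j) fun h => (this j i h).symm

theorem key {k : ℕ} (hk : 1 ≤ k) {C : Set ℝ} (hC : IsCompact C) (h0 : volume C = 0) {ε : ℝ}
    (hε : 0 < ε) (h1 : ε ≤ 1) : ∃ Q : ℕ, ∀ η0 > 0, ∃ H0 : ℝ, ∀ H ≥ H0, ∀ X > 0, ∀ f : ℕ → ℂ,
      (∀ m n, 0 < m → 0 < n → f (m * n) = f m * f n) → (∀ n, ‖f n‖ ≤ 1) →
      volume.real (Gs X H {j | ∃ g α, PD k α g ∧ (α ∈ C ∧ Far Q η0 α) ∧
        ε * H ≤ ‖∑ n ∈ Ioc j.1 j.2, f n * e (g n)‖}) ≤ ε * X := by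
  classical
  obtain ⟨A, hW⟩ := weyl hk
  obtain ⟨T, T2, hT⟩ := few_primes hk
  have T0 : (2 : ℝ) ≤ T := by exact_mod_cast T2
  set c := (ε / 4) ^ 2 / (64 * (2 / (ε / 8) ^ 2)) with hc
  set R : ℝ := 2 / (ε / 8) ^ 2 with hR
  set s := ⌊R ^ A⌋₊.factorial with hs
  have R0 : 0 < R := by positivity
  have c0 : 0 < c := by positivity
  obtain ⟨Q, hQ⟩ := hT s C (c ^ 2 / (8 * T)) (Nat.factorial_pos _) hC h0 (by positivity)
  refine ⟨Q, fun η0 h => ?_⟩
  obtain ⟨η, η1, z0, hz⟩ := hQ η0 h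
  obtain ⟨P0, hP⟩ := blk_card
  obtain ⟨i1, hi⟩ := exists_nat_gt (8 * T / c ^ 2)
  set i0 := z0 + P0 + i1 + 1 with hi0
  obtain ⟨n, n0, hn⟩ := harm i0 (8 * T * (64 / ε ^ 2))
  set B := 2 * (2 ^ (n + i0)) ^ T with hB
  have B0 : (0 : ℝ) ≤ B := B.cast_nonneg
  refine ⟨1 + (B + 2 * B ^ 2) + 4 * B ^ k * (s * R ^ A) * B / η, fun H hH X hX f hm hf => ?_⟩
  have H1 : 1 + (B + 2 * B ^ 2 : ℝ) ≤ H := le_trans (le_add_of_nonneg_right (by positivity)) hH
  have H2 : 4 * B ^ k * (s * R ^ A) * B ≤ η * H := by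
    rw [mul_comm η, ← div_le_iff₀ η1]
    exact le_trans (le_add_of_nonneg_left (by positivity)) hH
  have H3 : 1 ≤ H := le_trans (le_add_of_nonneg_right (by positivity)) H1
  set Φ : Set (ℕ × ℕ) := {j | ∃ g α, PD k α g ∧ (α ∈ C ∧ Far Q η0 α) ∧
    ε * H ≤ ‖∑ n ∈ Ioc j.1 j.2, f n * e (g n)‖} with hΦ
  have ch : ∀ j, ∃ (g : ℝ → ℝ) (α : ℝ), j ∈ Φ → PD k α g ∧ (α ∈ C ∧ Far Q η0 α) ∧
      ε * H ≤ ‖∑ n ∈ Ioc j.1 j.2, f n * e (g n)‖ := fun j => by
    by_cases hj : j ∈ Φ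
    · obtain ⟨g, α, h⟩ := hj
      exact ⟨g, α, fun _ => h⟩
    · exact ⟨0, 0, fun h => (hj h).elim⟩
  choose g α hg using ch
  set G : ℕ → Set ℝ := fun p => Gs X H {j | j ∈ Φ ∧ ε * H / (2 * p) ≤
    ‖∑ m ∈ Ioc (j.1 / p) (j.2 / p), f m * e (g j (p * m))‖} with hG
  set Ps := (range n).biUnion fun i => blk ((2 ^ (i + i0)) ^ T) with hPs
  have zi : ∀ i, i0 ≤ 2 ^ (i + i0) := fun i => (Nat.le_add_left _ _).trans Nat.lt_two_pow_self.le
  have zP : ∀ i, 2 ^ (i + i0) * 2 ^ (i + i0) ≤ (2 ^ (i + i0)) ^ T := fun i => by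
    rw [← sq]; exact Nat.pow_le_pow_right (by positivity) T2
  have cP : ∀ i, (((2 ^ (i + i0)) ^ T : ℕ) : ℝ) / (4 * (T * Real.log (2 ^ (i + i0) : ℕ))) ≤
      #(blk ((2 ^ (i + i0)) ^ T)) := fun i => by
    have := hP ((2 ^ (i + i0)) ^ T) (by nlinarith [zi i, zP i])
    rwa [Nat.cast_pow _ T, Real.log_pow, ← Nat.cast_pow] at this
  have lg : ∀ i, 0 < Real.log (2 ^ (i + i0) : ℕ) := fun i =>
    Real.log_pos (by exact_mod_cast Nat.one_lt_two_pow (by omega))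
  have PB : ∀ i ∈ range n, 2 * (2 ^ (i + i0)) ^ T ≤ B := fun i hi => by
    have := (mem_range.1 hi).le
    rw [hB]; gcongr; norm_num
  have bl : ∀ P, ∀ p ∈ blk P, (P : ℝ) < p ∧ (p : ℝ) ≤ 2 * P := fun P p hp => by
    exact_mod_cast mem_Ioc.1 (mem_filter.1 hp).1
  have hL : 64 / ε ^ 2 ≤ ∑ p ∈ Ps, 1 / (p : ℝ) := by
    rw [hPs, sum_biUnion (blk_disj (by omega) i0 _)]
    refine le_of_mul_le_mul_left (hn.trans ?_) (by positivity : (0 : ℝ) < 8 * T)
    rw [mul_sum]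
    refine sum_le_sum fun i _ => ?_
    have a1 := card_nsmul_le_sum (blk ((2 ^ (i + i0)) ^ T)) (fun p => 1 / (p : ℝ))
      (1 / (2 * ((2 ^ (i + i0)) ^ T : ℕ))) fun p hp =>
        one_div_le_one_div_of_le (by linarith [(bl _ p hp).1, (by positivity :
          (0 : ℝ) ≤ ((2 ^ (i + i0)) ^ T : ℕ))]) (bl _ p hp).2
    rw [nsmul_eq_mul] at a1
    have a2 : Real.log (2 ^ (i + i0) : ℕ) ≤ (i + i0 : ℕ) := by
      rw [Nat.cast_pow, Real.log_pow]
      exact mul_le_of_le_one_right (by positivity) (by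
        have := Real.log_two_lt_d9; push_cast; linarith)
    refine (one_div_le_one_div_of_le (lg i) a2).trans (le_trans (le_of_eq ?_)
      (mul_le_mul_of_nonneg_left ((mul_le_mul_of_nonneg_right (cP i) (by positivity)).trans a1)
        (by positivity)))
    have := lg i
    field_simp
    norm_num
  have sub : ∀ S, Gs X H S ⊆ Set.Icc 0 (2 * X) := fun S =>
    Set.inter_subset_left.trans (Set.Icc_subset_Icc_left hX.le)
  have h2 := wsum_le {()} (fun _ => Gs X H Φ) (fun _ => (∑ p ∈ Ps, 1 / (p : ℝ)) / 2) Ps G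
    (fun p => 1 / (p : ℝ)) (L := 2 * X) (b := 0) (by positivity) (fun _ _ => ⟨meas_Gs _ _ _, sub _⟩)
    (fun _ _ => ⟨meas_Gs _ _ _, sub _⟩) fun y => by
      rw [add_zero, sum_filter, sum_singleton]
      split_ifs with hy
      · have y0 : 0 ≤ y := hX.le.trans hy.1.1
        have a1 := Nat.floor_le y0
        have a2 := Nat.lt_floor_add_one y
        have a3 := Nat.floor_le (show 0 ≤ y + H by linarith)
        have a4 := Nat.lt_floor_add_one (y + H)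
        have a5 := descend (a := ⌊y⌋₊) (b := ⌊y + H⌋₊) (B := B) Ps (fun p hp => by
          obtain ⟨i, b1, b2⟩ := mem_biUnion.1 hp
          exact ⟨(mem_filter.1 b2).2, (mem_Ioc.1 (mem_filter.1 b2).1).2.trans (PB i b1)⟩) hm hf
          (g (kap H y)) hε (by linarith : 0 < H) (by linarith) (by linarith) (hg _ hy.2).2.2
        refine le_trans (le_trans ?_ a5) (sum_le_sum_of_subset_of_nonneg (fun p hp => ?_)
          fun _ _ _ => by positivity)
        · rw [show 64 / ε ^ 2 = 2 * (32 / ε ^ 2) by ring] at hL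
          linarith
        · exact mem_filter.2 ⟨(mem_filter.1 hp).1, hy.1, hy.2, (mem_filter.1 hp).2⟩
      · exact sum_nonneg fun _ _ => by positivity
  by_contra hc'
  have h3 : ∑ p ∈ Ps, 1 / (p : ℝ) * (ε * X / 2) ≤ ∑ p ∈ Ps, 1 / (p : ℝ) * volume.real (G p) := by
    rw [sum_singleton, zero_mul, add_zero] at h2
    rw [← sum_mul]
    have : 0 ≤ ∑ p ∈ Ps, 1 / (p : ℝ) := sum_nonneg fun _ _ => by positivity
    nlinarith [mul_le_mul_of_nonneg_left (not_le.1 hc').le this]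
  rw [hPs, sum_biUnion (blk_disj (by omega) i0 _), sum_biUnion (blk_disj (by omega) i0 _)] at h3
  obtain ⟨i, i1', h4⟩ := exists_le_of_sum_le (nonempty_range_iff.2 n0.ne') h3
  have c1 := cP i
  have c2 := lg i
  have c3 : ((2 * (2 ^ (i + i0)) ^ T : ℕ) : ℝ) ≤ B := by exact_mod_cast PB i i1'
  have c4 := zi i
  have c5 : ((2 ^ (i + i0) * 2 ^ (i + i0) : ℕ) : ℝ) ≤ ((2 ^ (i + i0)) ^ T : ℕ) := by
    exact_mod_cast zP i
  have hz' := hz _ (show z0 ≤ 2 ^ (i + i0) by omega)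
  have c6 : 8 * T / c ^ 2 < (2 ^ (i + i0) : ℕ) := hi.trans_le (by exact_mod_cast (by omega))
  generalize 2 ^ (i + i0) = z at *
  generalize hP' : z ^ T = P at *
  have z1 : (0 : ℝ) < z := lt_trans (by positivity) c6
  rw [Nat.cast_mul] at c3 c5
  have P1 : (0 : ℝ) < P := lt_of_lt_of_le (by positivity) c5
  have h5 := block hk hW hε h1 hX (P := P) (H := H) (η := η)
    (card_pos.1 (Nat.cast_pos.1 (lt_of_lt_of_le (by positivity) c1)))
    (by push_cast at c3; nlinarith) (fun α => α ∈ C ∧ Far Q η0 α) (by positivity)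
    (fun γ S hS => hz' γ S fun w hw => by
      obtain ⟨a1, β, a2, a3⟩ := hS w hw
      exact ⟨(mem_filter.1 a1).1, (mem_filter.1 a1).2, β, a2.1, a2.2, a3⟩)
    (le_trans (by
      push_cast at c3
      have : (P : ℝ) ≤ B := by linarith
      gcongr) H2) hf g α Φ
    (fun j hj => ⟨(hg j hj).1, (hg j hj).2.1⟩) (by
      refine le_of_mul_le_mul_left (le_trans ?_ (h4.trans ?_)) (by positivity : 0 < 1 / (P : ℝ))
      · rw [mul_left_comm, ← nsmul_eq_mul]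
        refine card_nsmul_le_sum _ _ _ fun p hp => ?_
        calc 1 / (P : ℝ) * (ε / 4 * X) = 1 / (2 * P) * (ε * X / 2) := by field_simp; norm_num
          _ ≤ _ := by gcongr; exacts [P1.trans (bl _ p hp).1, (bl _ p hp).2]
      · rw [mul_sum]
        refine sum_le_sum fun p hp => ?_
        exact mul_le_mul_of_nonneg_right (one_div_le_one_div_of_le P1 (bl _ p hp).1.le)
          measureReal_nonneg)
  have h6 : (z : ℝ) ≤ P / Real.log z := by
    rw [le_div_iff₀ c2]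
    nlinarith [Real.log_le_sub_one_of_pos z1]
  rw [show (P : ℝ) / (4 * (T * Real.log z)) = 2 * (P / Real.log z / (8 * T)) by
    field_simp; norm_num] at c1
  rw [← hc, show c ^ 2 / (8 * T) * (P / Real.log z) = c ^ 2 * (P / Real.log z / (8 * T)) by ring] at h5
  rw [div_lt_iff₀ (by positivity)] at c6
  have h7 : 1 < c ^ 2 * (P / Real.log z / (8 * T)) := by
    rw [← mul_div_assoc, one_lt_div (by positivity)]
    nlinarith [pow_pos c0 2]
  nlinarith [mul_le_mul_of_nonneg_left c1 (pow_pos c0 2).le]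

end Pool.Agent.Lib.MP_028aa5_nt
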