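import Pool.Agent.Lib.MP_028aa5_nt.Basic

/-! Weyl's inequality in inverse form, with polynomial dependence. -/

namespace Pool.Agent.Lib.MP_028aa5_nt

open Finset
open scoped ComplexConjugate

lemma norm_sum_e_le (I : Finset ℕ) (g : ℕ → ℝ) : ‖∑ n ∈ I, e (g n)‖ ≤ #I :=
  (norm_sum_le _ _).trans (by simp)

lemma geom {α : ℝ} {g : ℝ → ℝ} (h : PD 1 α g) (a b : ℕ) :
    ‖∑ n ∈ Ioc a b, e (g n)‖ * ‖e α - 1‖ ≤ 2 := by
  have h1 : ∀ x, g (x + 1) = g x + α := fun x => by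
    have := h 1 x
    simp only [Nat.cast_zero, zero_add, mul_one, one_mul] at this
    linarith
  rcases le_or_gt a b with hab | hab
  · have : (∑ n ∈ Ioc a b, e (g n)) * (e α - 1) = e (g (b + 1)) - e (g (a + 1)) := by
      induction b, hab using Nat.le_induction with
      | base => simp
      | succ b hb ih =>
        rw [sum_Ioc_succ_top hb, add_mul, ih]
        push_cast
        rw [h1 (b + 1), e_add]
        ring
    rw [← norm_mul, this]
    exact (norm_sub_le _ _).trans (by simp; norm_num)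
  · rw [Ioc_eq_empty (by omega)]
    simp

lemma vdC (u : ℕ → ℝ) {a b N : ℕ} (hb : b ≤ a + N) :
    ‖∑ n ∈ Ioc a b, e (u n)‖ ^ 2 ≤
      N + 2 * ∑ h ∈ Icc 1 N, ‖∑ n ∈ Ioc a (b - h), e (u (n + h) - u n)‖ := by
  set T : ℂ := ∑ h ∈ Icc 1 N, ∑ n ∈ Ioc a (b - h), e (u (n + h) - u n) with hT
  have h1 : ∑ x ∈ (Ioc a b ×ˢ Ioc a b).filter (fun x => x.2 < x.1), e (u x.1 - u x.2) = T := by
    rw [hT, sum_sigma']
    refine sum_bij' (fun x _ => ⟨x.1 - x.2, x.2⟩) (fun y _ => (y.2 + y.1, y.2)) ?_ ?_ ?_ ?_ ?_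
    · intro x hx
      simp only [mem_filter, mem_product, mem_Ioc, mem_sigma, mem_Icc] at hx ⊢
      omega
    · intro y hy
      simp only [mem_filter, mem_product, mem_Ioc, mem_sigma, mem_Icc] at hy ⊢
      omega
    · intro x hx
      simp only [mem_filter] at hx
      ext <;> simp only
      omega
    · intro y hy
      simp
    · intro x hx
      simp only [mem_filter] at hx
      rw [Nat.add_sub_cancel' hx.2.le]
  have h2 : ∑ x ∈ (Ioc a b ×ˢ Ioc a b).filter (fun x => x.1 < x.2), e (u x.1 - u x.2) =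
      conj T := by
    rw [← h1, map_sum]
    refine sum_bij' (fun x _ => x.swap) (fun x _ => x.swap) ?_ ?_ ?_ ?_ ?_
    · intro x hx
      simp only [mem_filter, mem_product, Prod.fst_swap, Prod.snd_swap] at hx ⊢
      tauto
    · intro x hx
      simp only [mem_filter, mem_product, Prod.fst_swap, Prod.snd_swap] at hx ⊢
      tauto
    · intro x _; simp
    · intro x _; simp
    · intro x _
      simp [conj_e]
  have h3 : ∑ x ∈ (Ioc a b ×ˢ Ioc a b).filter (fun x => x.1 = x.2), e (u x.1 - u x.2) =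
      (#(Ioc a b) : ℂ) := by
    rw [sum_congr rfl (g := fun _ => (1 : ℂ)) fun x hx => by
      rw [(mem_filter.1 hx).2, sub_self, e_zero]]
    rw [sum_const, nsmul_eq_mul, mul_one, ← diag_card (s := Ioc a b), diag_eq_filter]
  have h4 : ((‖∑ n ∈ Ioc a b, e (u n)‖ ^ 2 : ℝ) : ℂ) = #(Ioc a b) + T + conj T := by
    push_cast
    rw [← Complex.mul_conj', map_sum, sum_mul_sum, ← sum_product', ← h3, ← h2]
    nth_rewrite 1 [← h1]
    simp only [sum_filter, ← sum_add_distrib, e_mul_conj]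
    refine sum_congr rfl fun x _ => ?_
    rcases lt_trichotomy x.1 x.2 with h | h | h
    · simp [h, h.ne, h.not_gt]
    · simp [h]
    · simp [h, h.ne', h.not_gt]
  have h5 : ‖T‖ ≤ ∑ h ∈ Icc 1 N, ‖∑ n ∈ Ioc a (b - h), e (u (n + h) - u n)‖ := norm_sum_le _ _
  have h6 := congrArg norm h4
  rw [Complex.norm_real, Real.norm_eq_abs, abs_of_nonneg (sq_nonneg _)] at h6
  have h7 := norm_add₃_le (a := (#(Ioc a b) : ℂ)) (b := T) (c := conj T)
  rw [Complex.norm_conj, Complex.norm_natCast] at h7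
  have h8 : (#(Ioc a b) : ℝ) ≤ N := by
    rw [Nat.card_Ioc]
    exact_mod_cast (by omega : b - a ≤ N)
  linarith

lemma card_le_of_diam (S : Finset ℕ) {L : ℝ} (hL : 0 ≤ L)
    (h : ∀ a ∈ S, ∀ b ∈ S, (b : ℝ) - a ≤ L) : (#S : ℝ) ≤ L + 1 := by
  rcases S.eq_empty_or_nonempty with rfl | hS
  · simp; linarith
  · have h1 : S ⊆ Icc (S.min' hS) (S.min' hS + ⌊L⌋₊) := fun b hb => by
      have h2 := S.min'_le b hb
      have h3 := h _ (S.min'_mem hS) b hb
      have h4 : b - S.min' hS ≤ ⌊L⌋₊ := Nat.le_floor (by rwa [Nat.cast_sub h2])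
      exact mem_Icc.2 ⟨h2, by omega⟩
    have h5 := card_le_card h1
    rw [Nat.card_Icc, show S.min' hS + ⌊L⌋₊ + 1 - S.min' hS = ⌊L⌋₊ + 1 by omega] at h5
    have h6 : (#S : ℝ) ≤ ⌊L⌋₊ + 1 := by exact_mod_cast h5
    linarith [Nat.floor_le hL]

lemma card_le_fibers {α β : Type*} [DecidableEq β] (S : Finset α) (T : Finset β) (f : α → β)
    (hf : ∀ a ∈ S, f a ∈ T) {L : ℝ} (h : ∀ b ∈ T, (#{a ∈ S | f a = b} : ℝ) ≤ L) :
    (#S : ℝ) ≤ #T * L := by
  rw [card_eq_sum_card_fiberwise hf, Nat.cast_sum, ← nsmul_eq_mul]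
  exact sum_le_card_nsmul _ _ _ h

lemma card_int_Icc {L : ℝ} (hL : 0 ≤ L) : (#(Icc (-(⌊L⌋₊ : ℤ)) ⌊L⌋₊) : ℝ) ≤ 2 * L + 1 := by
  have : #(Icc (-(⌊L⌋₊ : ℤ)) ⌊L⌋₊) = 2 * ⌊L⌋₊ + 1 := by
    rw [Int.card_Icc]; omega
  rw [this]
  push_cast
  linarith [Nat.floor_le hL]

lemma mem_int_Icc {L : ℝ} {m : ℤ} (h : |(m : ℝ)| ≤ L) : m ∈ Icc (-(⌊L⌋₊ : ℤ)) ⌊L⌋₊ := by
  have h1 : m.natAbs ≤ ⌊L⌋₊ := Nat.le_floor (by rwa [Nat.cast_natAbs, Int.cast_abs])
  rw [mem_Icc]
  omega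

/-- many small multiples force a very small multiple -/
lemma vino {N : ℕ} {R ε α : ℝ} {S : Finset ℕ} (hR : 2 ≤ R) (hN : 3 * R < N) (hS : S ⊆ Icc 1 N)
    (hc : N / R ≤ #S) (hε : 32 * R ^ 2 * ε ≤ 1) (h : ∀ n ∈ S, Nr (n * α) ε) :
    ∃ q : ℕ, 1 ≤ q ∧ (q : ℝ) ≤ 2 * R ∧ Nr (q * α) (48 * R ^ 2 * ε / N) := by
  have R0 : 0 < R := by linarith
  have N0 : (0 : ℝ) < N := by linarith
  obtain ⟨q, q1, q2, m, hm⟩ : ∃ q : ℕ, 1 ≤ q ∧ (q : ℝ) ≤ 2 * R ∧ Nr (q * α) (ε + ε) := by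
    set L := ⌊2 * R⌋₊ with hL
    have L1 : 2 * R < L + 1 := Nat.lt_floor_add_one _
    have L2 : (L : ℝ) ≤ 2 * R := Nat.floor_le (by linarith)
    have L0 : (0 : ℝ) < L := by linarith
    have L0' : 0 < L := by exact_mod_cast L0
    have hlt : #(range (N / L + 1)) < #S := by
      have h1 : ((N / L : ℕ) : ℝ) ≤ N / L := Nat.cast_div_le
      have h2 : (N : ℝ) / L + 1 < N / R := by
        rw [div_add_one L0.ne', div_lt_div_iff₀ L0 R0]
        nlinarith
      rw [card_range]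
      exact_mod_cast (show ((N / L : ℕ) : ℝ) + 1 < #S by linarith)
    obtain ⟨x, hx, y, hy, hxy, he⟩ := exists_ne_map_eq_of_card_lt_of_maps_to hlt
      (f := fun n => n / L) fun n hn => mem_coe.2 (mem_range.2 (Nat.lt_succ_of_le
        (Nat.div_le_div_right (mem_Icc.1 (hS hn)).2)))
    wlog hlt2 : x < y generalizing x y
    · exact this y hy x hx hxy.symm he.symm (by omega)
    have h3 : y - x < L := by
      have a1 := Nat.div_add_mod x L
      have a2 := Nat.div_add_mod y L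
      have a3 := Nat.mod_lt y L0'
      rw [he] at a1
      omega
    refine ⟨y - x, by omega, le_trans (by exact_mod_cast h3.le) L2, ?_⟩
    rw [Nat.cast_sub hlt2.le, sub_mul]
    exact (h y hy).sub (h x hx)
  refine ⟨q, q1, q2, m, ?_⟩
  set θ := q * α - m with hθ
  have S0 : S.Nonempty := by
    rw [← card_pos]
    exact_mod_cast (div_pos N0 R0).trans_le hc
  have ε0 : 0 ≤ ε := (h _ S0.choose_spec).nonneg
  rcases (abs_nonneg θ).eq_or_lt with h0 | h0
  · rw [← h0]; positivity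
  have h4 : ∀ n ∈ S, ∃ j : ℤ, |n * θ - j| ≤ 2 * R * ε := fun n hn => by
    obtain ⟨j, hj⟩ := (h n hn).nat_mul q
    refine ⟨j - n * m, ?_⟩
    rw [show n * θ - ((j - n * m : ℤ) : ℝ) = q * (n * α) - j by rw [hθ]; push_cast; ring]
    exact hj.trans (mul_le_mul_of_nonneg_right q2 ε0)
  choose! j hj using h4
  have h5 : 2 * R * ε ≤ 1 := by nlinarith
  have h6 := card_le_fibers S (Icc (-(⌊N * |θ| + 1⌋₊ : ℤ)) ⌊N * |θ| + 1⌋₊) j
    (L := 8 * R * ε / |θ|) (fun n hn => mem_int_Icc (by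
      have a1 := abs_sub_abs_le_abs_sub (j n : ℝ) (n * θ)
      rw [abs_sub_comm, abs_mul, Nat.abs_cast] at a1
      have a2 : (n : ℝ) ≤ N := by exact_mod_cast (mem_Icc.1 (hS hn)).2
      nlinarith [hj n hn])) fun b _ => by
      refine (card_le_of_diam _ (L := 4 * R * ε / |θ|) (by positivity) fun x hx y hy => ?_).trans ?_
      · rw [le_div_iff₀ h0]
        have a1 := hj x (mem_filter.1 hx).1
        have a2 := hj y (mem_filter.1 hy).1
        rw [(mem_filter.1 hx).2] at a1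
        rw [(mem_filter.1 hy).2] at a2
        have a3 := abs_sub (y * θ - b) (x * θ - b)
        rw [show y * θ - b - (x * θ - b) = (y - x) * θ by ring, abs_mul] at a3
        nlinarith [le_abs_self ((y : ℝ) - x)]
      · rw [div_add_one h0.ne']
        exact div_le_div_of_nonneg_right (by nlinarith) h0.le
  have h7 := mul_le_mul_of_nonneg_right (card_int_Icc (L := N * |θ| + 1) (by positivity))
    (show 0 ≤ 8 * R * ε / |θ| by positivity)
  have h8 := hc.trans (h6.trans h7)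
  rw [← mul_div_assoc, div_le_div_iff₀ R0 h0] at h8
  rw [le_div_iff₀ N0]
  nlinarith [mul_nonneg N0.le h0.le]

/-- the statement of the inverse Weyl inequality -/
def WeylSt (k A : ℕ) : Prop :=
  ∀ (R α : ℝ) (g : ℝ → ℝ) (N a b : ℕ), 2 ≤ R → PD k α g → b ≤ a + N → 0 < N →
    N / R ≤ ‖∑ n ∈ Ioc a b, e (g n)‖ →
    ∃ q : ℕ, 1 ≤ q ∧ (q : ℝ) ≤ R ^ A ∧ Nr (q * α) (R ^ A / N ^ k)

lemma weyl_one : WeylSt 1 1 := by
  intro R α g N a b hR hg _ hN h
  have N0 : (0 : ℝ) < N := by exact_mod_cast hN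
  refine ⟨1, le_rfl, by simp; linarith, round α, ?_⟩
  have h1 := geom hg a b
  have h2 := le_norm_e_sub_one (abs_sub_round α)
  rw [e_sub_int] at h2
  have h3 := mul_le_mul h h2 (by positivity) (norm_nonneg _)
  rw [div_mul_eq_mul_div, div_le_iff₀ (by linarith)] at h3
  rw [Nat.cast_one, one_mul, pow_one, pow_one, le_div_iff₀ N0]
  nlinarith

lemma weyl_step {k A : ℕ} (hk : 1 ≤ k) (ih : WeylSt k A) :
    WeylSt (k + 1) ((15 * A + 16) * (k + 1) + k) := by
  intro R α g N a b hR hg hb hN h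
  have N0 : (0 : ℝ) < N := by exact_mod_cast hN
  have N1 : (1 : ℝ) ≤ N := by exact_mod_cast hN
  have R1 : 1 ≤ R := by linarith
  have R0 : 0 < R := by linarith
  have pw : ∀ {i j : ℕ}, i ≤ j → R ^ i ≤ R ^ j := fun h => pow_le_pow_right₀ R1 h
  have p2 : ∀ i : ℕ, 2 ^ i ≤ R ^ i := fun i => pow_le_pow_left₀ zero_le_two hR i
  rcases le_or_gt (N : ℝ) (R ^ (15 * A + 16)) with hN2 | hN2
  · refine ⟨1, le_rfl, by simpa using one_le_pow₀ R1, (Nr.half _).mono ?_⟩
    have := pow_le_pow_left₀ N0.le hN2 (k + 1)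
    rw [← pow_mul] at this
    rw [le_div_iff₀ (by positivity)]
    have h2 := pw (show (15 * A + 16) * (k + 1) ≤ (15 * A + 16) * (k + 1) + k by omega)
    have : (0 : ℝ) < N ^ (k + 1) := by positivity
    linarith
  set T : ℕ → ℝ := fun h => ‖∑ n ∈ Ioc a (b - h), e (g ((n + h : ℕ) : ℝ) - g n)‖ with hT
  have h1 : (N / R) ^ 2 ≤ N + 2 * ∑ h ∈ Icc 1 N, T h :=
    (pow_le_pow_left₀ (by positivity) h 2).trans (vdC (fun n => g n) hb)
  have r5 : 8 * R ^ 2 ≤ R ^ 5 := by nlinarith [p2 3, pow_pos R0 2]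
  set S := (Icc 1 N).filter fun h => N / R ^ 5 ≤ T h with hS
  have h2 : ∑ h ∈ Icc 1 N, T h ≤ #S * N + N * (N / R ^ 5) := by
    rw [← sum_filter_add_sum_filter_not (Icc 1 N) fun h => N / R ^ 5 ≤ T h]
    refine add_le_add ?_ ?_
    · rw [← nsmul_eq_mul]
      refine sum_le_card_nsmul _ _ _ fun h _ => (norm_sum_e_le _ _).trans ?_
      rw [Nat.card_Ioc]
      exact_mod_cast (by omega : b - h - a ≤ N)
    · refine (sum_le_card_nsmul _ _ (N / R ^ 5) fun h hh => (not_le.1 (mem_filter.1 hh).2).le).trans ?_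
      rw [nsmul_eq_mul]
      refine mul_le_mul_of_nonneg_right ?_ (by positivity)
      exact_mod_cast (card_filter_le _ _).trans (by simp)
  have h3 : N / R ^ 5 ≤ #S := by
    have a1 : 2 * R ^ 2 ≤ N := by nlinarith [pw (show 5 ≤ 15 * A + 16 by omega), pow_pos R0 2]
    have a2 : (N : ℝ) / R ^ 5 ≤ N / (8 * R ^ 2) :=
      div_le_div_of_nonneg_left N0.le (by positivity) r5
    have a3 : (N / R) ^ 2 = N * (8 * (N / (8 * R ^ 2))) := by field_simp
    have a4 : 1 ≤ 4 * (N / (8 * R ^ 2)) := by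
      rw [← mul_div_assoc, le_div_iff₀ (by positivity)]; linarith
    refine le_of_mul_le_mul_left ?_ N0
    nlinarith
  have h4 : ∀ h ∈ S, ∃ q : ℕ, 1 ≤ q ∧ (q : ℝ) ≤ (R ^ 5) ^ A ∧
      Nr (q * ((k + 1) * h * α)) ((R ^ 5) ^ A / N ^ k) := fun h hh =>
    ih (R ^ 5) _ _ N a (b - h) (by nlinarith [pow_pos R0 2, p2 2]) (hg h) (by omega) hN
      (by simpa [hT] using (mem_filter.1 hh).2)
  choose! q q1 q2 q3 using h4
  have A1 : 1 ≤ (R ^ 5) ^ A := one_le_pow₀ (one_le_pow₀ R1)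
  obtain ⟨q0, hq0, h5⟩ := exists_le_card_fiber_of_nsmul_le_card_of_maps_to (s := S)
    (t := Icc 1 ⌊(R ^ 5) ^ A⌋₊) (f := q) (b := N / R ^ (5 * A + 5))
    (fun h hh => mem_Icc.2 ⟨q1 h hh, Nat.le_floor (q2 h hh)⟩)
    ⟨1, mem_Icc.2 ⟨le_rfl, Nat.le_floor (by simpa using A1)⟩⟩ (by
      refine le_trans ?_ h3
      rw [nsmul_eq_mul, Nat.card_Icc, Nat.add_sub_cancel]
      refine (mul_le_mul_of_nonneg_right (Nat.floor_le (by positivity)) (by positivity)).trans
        (le_of_eq ?_)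
      rw [← pow_mul, pow_add]
      field_simp)
  have q4 : (q0 : ℝ) ≤ R ^ (5 * A) := by
    rw [pow_mul]
    exact (Nat.le_floor_iff (by positivity)).1 (mem_Icc.1 hq0).2
  have Nk : (N : ℝ) ≤ N ^ k := le_self_pow₀ N1 (by omega)
  obtain ⟨q', c1, c2, c3⟩ := vino (α := q0 * (k + 1) * α) (ε := (R ^ 5) ^ A / N ^ k)
    ((p2 1).trans' (by norm_num) |>.trans (pw (show 1 ≤ 5 * A + 5 by omega)))
    (by
      have := pw (show 2 + (5 * A + 5) ≤ 15 * A + 16 by omega)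
      rw [pow_add] at this
      nlinarith [p2 2, pow_pos R0 (5 * A + 5)])
    ((filter_subset _ _).trans (filter_subset _ _)) h5
    (by
      rw [← mul_div_assoc, div_le_one (by positivity), ← pow_mul, ← pow_mul, mul_assoc, ← pow_add]
      have := pw (show 5 + ((5 * A + 5) * 2 + 5 * A) ≤ 15 * A + 16 by omega)
      rw [pow_add] at this
      nlinarith [p2 5, pow_pos R0 ((5 * A + 5) * 2 + 5 * A)])
    fun h hh => by
      have := q3 h (mem_filter.1 hh).1
      rw [(mem_filter.1 hh).2] at this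
      rwa [show h * (q0 * (k + 1) * α) = q0 * ((k + 1) * h * α) by ring]
  refine ⟨q' * q0 * (k + 1), Nat.mul_pos (Nat.mul_pos c1 (mem_Icc.1 hq0).1) k.succ_pos, ?_, ?_⟩
  · have a1 : (k + 1 : ℝ) ≤ R ^ k := le_trans (by exact_mod_cast Nat.lt_two_pow_self) (p2 k)
    have a2 : (q' : ℝ) ≤ R ^ (5 * A + 6) := by
      rw [pow_succ]; nlinarith [pow_pos R0 (5 * A + 5)]
    push_cast
    refine (mul_le_mul (mul_le_mul a2 q4 (by positivity) (by positivity)) a1 (by positivity)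
      (by positivity)).trans ?_
    rw [← pow_add, ← pow_add]
    exact pw (by nlinarith)
  · rw [show ((q' * q0 * (k + 1) : ℕ) : ℝ) * α = q' * (q0 * (k + 1) * α) by push_cast; ring]
    refine c3.mono ?_
    rw [← mul_div_assoc, div_div, ← pow_succ, ← pow_mul, ← pow_mul, mul_assoc, ← pow_add]
    refine div_le_div_of_nonneg_right ?_ (by positivity)
    have := pw (show 6 + ((5 * A + 5) * 2 + 5 * A) ≤ (15 * A + 16) * (k + 1) + k by nlinarith)
    rw [pow_add] at this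
    nlinarith [p2 6, pow_pos R0 ((5 * A + 5) * 2 + 5 * A)]

theorem weyl {k : ℕ} (hk : 1 ≤ k) : ∃ A, WeylSt k A := by
  induction k, hk using Nat.le_induction with
  | base => exact ⟨1, weyl_one⟩
  | succ k hk ih => exact ⟨_, weyl_step hk ih.choose_spec⟩

end Pool.Agent.Lib.MP_028aa5_nt
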