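import Pool.Agent.Lib.MP_028aa5_nt.Tools
import Pool.Agent.Lib.MP_028aa5_nt.Comb
import Pool.Agent.Shared.PNTAP

/-! Turan-Kubilius inequality, large sieve at the child interval, primes in dyadic blocks. -/

namespace Pool.Agent.Lib.MP_028aa5_nt

open Finset
open scoped ComplexConjugate

lemma sum_ind {D a b : ℕ} (hD : 0 < D) (hab : a ≤ b) :
    |∑ n ∈ Ioc a b, (if D ∣ n then (1 : ℝ) else 0) - (b - a) / D| ≤ 1 := by
  simpa only [sum_boole, Nat.dvd_iff_mod_eq_zero] using card_ap hD hab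

lemma tk {a b B : ℕ} (hab : a ≤ b) (Q : Finset ℕ) (hQ : ∀ p ∈ Q, p.Prime ∧ p ≤ B)
    (hN : (B + 2 * B ^ 2 : ℝ) ≤ b - a) (u : ℕ → ℂ) (hu : ∀ n, ‖u n‖ ≤ 1) :
    ∑ p ∈ Q, p * ‖∑ n ∈ Ioc a b with p ∣ n, u n - (∑ n ∈ Ioc a b, u n) / p‖ ^ 2 ≤
      2 * (b - a) ^ 2 := by
  set g : ℕ → ℕ → ℝ := fun p n => (if p ∣ n then 1 else 0) - 1 / p with hg
  have N0 : (0 : ℝ) ≤ b - a := sub_nonneg.2 (by exact_mod_cast hab)
  have cQ : (#Q : ℝ) ≤ B := by
    have := card_le_card (show Q ⊆ Icc 1 B from fun p hp => mem_Icc.2 ⟨(hQ p hp).1.pos, (hQ p hp).2⟩)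
    rw [Nat.card_Icc] at this
    exact_mod_cast this
  have h1 := bessel (Ioc a b) Q u (fun p n => ((√p * g p n : ℝ) : ℂ)) (B := 2 * (b - a))
    (fun p hp => by
      have p2 : (2 : ℝ) ≤ p := by exact_mod_cast (hQ p hp).1.two_le
      have pB : (p : ℝ) ≤ B := by exact_mod_cast (hQ p hp).2
      have i1 : 1 / (p : ℝ) ≤ 1 / 2 := one_div_le_one_div_of_le two_pos p2
      have i2 : 0 ≤ 1 / (p : ℝ) := by positivity
      refine (sum_le_sum (g := fun q => (if p = q then (b - a + B : ℝ) else 0) + 2 * B)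
        fun q hq => ?_).trans ?_
      · have q2 : (2 : ℝ) ≤ q := by exact_mod_cast (hQ q hq).1.two_le
        have qB : (q : ℝ) ≤ B := by exact_mod_cast (hQ q hq).2
        simp only [Complex.conj_ofReal, ← Complex.ofReal_mul, ← Complex.ofReal_sum,
          Complex.norm_real, Real.norm_eq_abs]
        rw [sum_congr rfl fun n _ => mul_mul_mul_comm _ _ _ _, ← mul_sum, abs_mul, abs_mul]
        have c1 := abs_le.1 (sum_ind (hQ p hp).1.pos hab)
        split_ifs with h
        · subst h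
          have e : ∀ n, g p n * g p n =
              (1 - 2 * (1 / p)) * (if p ∣ n then (1 : ℝ) else 0) + (1 / p) ^ 2 := fun n => by
            simp only [hg]; split_ifs <;> ring
          rw [← abs_mul, Real.mul_self_sqrt (by positivity), Nat.abs_cast,
            abs_of_nonneg (sum_nonneg fun _ _ => mul_self_nonneg _)]
          simp only [e, sum_add_distrib, ← mul_sum, sum_const, Nat.card_Ioc, nsmul_eq_mul,
            Nat.cast_sub hab]
          have c2 := mul_le_mul_of_nonneg_left (sub_le_iff_le_add'.1 c1.2)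
            (show 0 ≤ 1 - 2 * (1 / (p : ℝ)) by linarith)
          have c3 : p * ((1 - 2 * (1 / p)) * ((b - a) / p + 1) + (b - a) * (1 / p) ^ 2 : ℝ) =
              (b - a) + p - 2 - (b - a) / p := by field_simp; ring
          have c4 : (0 : ℝ) ≤ (b - a) / p := by positivity
          nlinarith
        · have e : ∀ n, g p n * g q n = (if p * q ∣ n then (1 : ℝ) else 0) -
              (1 / q) * (if p ∣ n then (1 : ℝ) else 0) - (1 / p) * (if q ∣ n then (1 : ℝ) else 0) +
              1 / p * (1 / q) := fun n => by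
            have : p * q ∣ n ↔ p ∣ n ∧ q ∣ n := ⟨fun h => ⟨dvd_of_mul_right_dvd h,
              dvd_of_mul_left_dvd h⟩, fun h' => ((Nat.coprime_primes (hQ p hp).1
                (hQ q hq).1).2 h).mul_dvd_of_dvd_of_dvd h'.1 h'.2⟩
            simp only [hg, this]
            by_cases h1 : p ∣ n <;> by_cases h2 : q ∣ n <;> simp [h1, h2] <;> ring
          have c2 := abs_le.1 (sum_ind (hQ q hq).1.pos hab)
          have c3 := abs_le.1 (sum_ind (Nat.mul_pos (hQ p hp).1.pos (hQ q hq).1.pos) hab)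
          have i3 : 1 / (q : ℝ) ≤ 1 / 2 := one_div_le_one_div_of_le two_pos q2
          have i4 : 0 ≤ 1 / (q : ℝ) := by positivity
          have c4 : |∑ n ∈ Ioc a b, g p n * g q n| ≤ 2 := by
            simp only [e, sum_add_distrib, sum_sub_distrib, ← mul_sum, sum_const, Nat.card_Ioc,
              nsmul_eq_mul, Nat.cast_sub hab]
            rw [Nat.cast_mul, show ((b : ℝ) - a) / (p * q) = (b - a) * (1 / p * (1 / q)) by
              field_simp] at c3
            rw [← mul_one_div] at c1 c2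
            rw [abs_le]
            constructor <;> nlinarith [mul_le_mul_of_nonneg_left c1.1 i4,
              mul_le_mul_of_nonneg_left c1.2 i4, mul_le_mul_of_nonneg_left c2.1 i2,
              mul_le_mul_of_nonneg_left c2.2 i2]
          have c5 : |√p| * |√q| ≤ B := by
            rw [abs_of_nonneg (Real.sqrt_nonneg _), abs_of_nonneg (Real.sqrt_nonneg _),
              ← Real.sqrt_mul (by positivity), Real.sqrt_le_left (by positivity), sq]
            gcongr
          rw [zero_add, mul_comm 2]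
          exact mul_le_mul c5 c4 (abs_nonneg _) (by positivity)
      · rw [sum_add_distrib, sum_ite_eq, if_pos hp, sum_const, nsmul_eq_mul]
        nlinarith) (by positivity)
  have h2 : ∑ n ∈ Ioc a b, ‖u n‖ ^ 2 ≤ b - a := by
    refine (sum_le_card_nsmul _ _ 1 fun n _ => pow_le_one₀ (norm_nonneg _) (hu n)).trans ?_
    rw [Nat.card_Ioc, nsmul_eq_mul, mul_one, Nat.cast_sub hab]
  refine le_of_eq_of_le (sum_congr rfl fun p _ => ?_) (h1.trans (by nlinarith))
  have : ∑ n ∈ Ioc a b, u n * ((√p * g p n : ℝ) : ℂ) = ((√p : ℝ) : ℂ) *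
      (∑ n ∈ Ioc a b with p ∣ n, u n - (∑ n ∈ Ioc a b, u n) / p) := by
    rw [sum_filter, sum_div, ← sum_sub_distrib, mul_sum]
    refine sum_congr rfl fun n _ => ?_
    simp only [hg]
    split_ifs <;> push_cast <;> ring
  rw [this, norm_mul, mul_pow, Complex.norm_real, Real.norm_eq_abs, sq_abs,
    Real.sq_sqrt (by positivity)]

lemma sum_dvd {p : ℕ} (hp : 0 < p) (a b : ℕ) (u : ℕ → ℂ) :
    ∑ n ∈ Ioc a b with p ∣ n, u n = ∑ m ∈ Ioc (a / p) (b / p), u (p * m) := by
  refine sum_bij' (fun n _ => n / p) (fun m _ => p * m) ?_ ?_ ?_ ?_ ?_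
  · intro n hn
    obtain ⟨h, c, rfl⟩ := mem_filter.1 hn
    rw [mem_Ioc] at h ⊢
    rwa [Nat.mul_div_cancel_left _ hp, Nat.div_lt_iff_lt_mul hp, Nat.le_div_iff_mul_le hp,
      mul_comm c]
  · intro m hm
    rw [mem_Ioc, Nat.div_lt_iff_lt_mul hp, Nat.le_div_iff_mul_le hp, mul_comm m] at hm
    exact mem_filter.2 ⟨mem_Ioc.2 hm, dvd_mul_right _ _⟩
  · exact fun n hn => Nat.mul_div_cancel' (mem_filter.1 hn).2
  · exact fun m _ => Nat.mul_div_cancel_left _ hp
  · exact fun n hn => by rw [Nat.mul_div_cancel' (mem_filter.1 hn).2]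

open Classical in
/-- for most primes a correlation descends to the child interval -/
lemma descend {a b B : ℕ} (Q : Finset ℕ) (hQ : ∀ p ∈ Q, p.Prime ∧ p ≤ B) {f : ℕ → ℂ}
    (hm : ∀ m n, 0 < m → 0 < n → f (m * n) = f m * f n) (hf : ∀ n, ‖f n‖ ≤ 1) (g : ℝ → ℝ)
    {ε H : ℝ} (hε : 0 < ε) (hH : 0 < H) (hN : (B + 2 * B ^ 2 : ℝ) ≤ b - a)
    (hN2 : (b - a : ℝ) ≤ 2 * H) (h : ε * H ≤ ‖∑ n ∈ Ioc a b, f n * e (g n)‖) :
    ∑ p ∈ Q, 1 / (p : ℝ) - 32 / ε ^ 2 ≤ ∑ p ∈ Q with
      ε * H / (2 * p) ≤ ‖∑ m ∈ Ioc (a / p) (b / p), f m * e (g (p * m))‖, 1 / (p : ℝ) := by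
  have N0 : (0 : ℝ) ≤ b - a := le_trans (by positivity) hN
  have h1 := tk (by exact_mod_cast sub_nonneg.1 N0) Q hQ hN (fun n => f n * e (g n))
    fun n => by simpa using hf n
  rw [← sum_filter_add_sum_filter_not Q fun p =>
    ε * H / (2 * p) ≤ ‖∑ m ∈ Ioc (a / p) (b / p), f m * e (g (p * m))‖, add_sub_assoc,
    add_le_iff_nonpos_right, sub_nonpos, le_div_iff₀ (by positivity)]
  have h2 := (sum_le_sum_of_subset_of_nonneg (filter_subset (fun p => ¬ε * H / (2 * p) ≤
    ‖∑ m ∈ Ioc (a / p) (b / p), f m * e (g (p * m))‖) Q) fun _ _ _ => by positivity).trans h1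
  refine le_of_mul_le_mul_right (le_trans ?_ (mul_le_mul_of_nonneg_left h2 (by norm_num : (0 : ℝ) ≤ 4)
    |>.trans (by nlinarith))) (pow_pos hH 2)
  rw [sum_mul, sum_mul, mul_sum]
  refine sum_le_sum fun p hp => ?_
  obtain ⟨h3, h4⟩ := mem_filter.1 hp
  have p0 : (0 : ℝ) < p := by exact_mod_cast (hQ p h3).1.pos
  have h5 : ‖∑ n ∈ Ioc a b with p ∣ n, f n * e (g n)‖ ≤ ε * H / (2 * p) := by
    rw [sum_dvd (hQ p h3).1.pos, sum_congr rfl (g := fun m => f p * (f m * e (g (p * m))))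
      fun m hm' => by
        rw [hm p m (hQ p h3).1.pos (Nat.zero_lt_of_lt (mem_Ioc.1 hm').1), Nat.cast_mul, mul_assoc],
      ← mul_sum, norm_mul]
    exact (mul_le_of_le_one_left (norm_nonneg _) (hf p)).trans (not_le.1 h4).le
  have h6 := norm_sub_norm_le ((∑ n ∈ Ioc a b, f n * e (g n)) / p)
    (∑ n ∈ Ioc a b with p ∣ n, f n * e (g n))
  rw [norm_sub_rev, norm_div, Complex.norm_natCast] at h6
  have h7 : ε * H / (2 * p) ≤ ‖∑ n ∈ Ioc a b with p ∣ n, f n * e (g n) -
      (∑ n ∈ Ioc a b, f n * e (g n)) / p‖ := by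
    have := div_le_div_of_nonneg_right h p0.le
    rw [show ε * H / p = 2 * (ε * H / (2 * p)) by field_simp] at this
    linarith
  refine le_of_eq_of_le ?_ (mul_le_mul_of_nonneg_left (mul_le_mul_of_nonneg_left
    (pow_le_pow_left₀ (by positivity) h7 2) p0.le) (by norm_num))
  field_simp
  norm_num

/-- a bounded sequence correlates with few unrelated polynomial phases -/
lemma few_phases {k A c N : ℕ} (hW : WeylSt k A) (hN : 0 < N) {ε : ℝ} (hε : 0 < ε) (h1 : ε ≤ 1)
    (T : Finset ℕ) {f : ℕ → ℂ} (hf : ∀ n, ‖f n‖ ≤ 1) (b : ℕ → ℕ) (β : ℕ → ℝ) (g : ℕ → ℝ → ℝ)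
    (hT : ∀ p ∈ T, b p ≤ c + N ∧ PD k (β p) (g p) ∧
      ε * N ≤ ‖∑ m ∈ Ioc c (b p), f m * e (g p m)‖)
    (h : ∀ p ∈ T, ∀ q ∈ T, p ≠ q → ¬Nr (⌊(2 / ε ^ 2) ^ A⌋₊.factorial * (β p - β q))
      (⌊(2 / ε ^ 2) ^ A⌋₊.factorial * ((2 / ε ^ 2) ^ A / N ^ k))) : (#T : ℝ) ≤ 2 / ε ^ 2 := by
  have N0 : (0 : ℝ) < N := by exact_mod_cast hN
  have e2 : 0 < ε ^ 2 := by positivity
  have R2 : 2 ≤ 2 / ε ^ 2 := by
    rw [le_div_iff₀ e2]; nlinarith
  have fl : ∀ d, d ≤ c + N → (Ioc c (c + N)).filter (fun n => n ≤ d) = Ioc c d := fun d hd => by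
    ext n; simp only [mem_filter, mem_Ioc]; omega
  have h2 := bessel (Ioc c (c + N)) T f (fun p n => if n ≤ b p then e (g p n) else 0)
    (B := N + #T * (N / (2 / ε ^ 2))) (fun p hp => by
      refine (sum_le_sum (g := fun q => (if p = q then (N : ℝ) else 0) + N / (2 / ε ^ 2))
        fun q hq => ?_).trans ?_
      · have e : ∑ n ∈ Ioc c (c + N), (if n ≤ b p then e (g p n) else 0) *
            conj (if n ≤ b q then e (g q n) else 0) =
            ∑ n ∈ Ioc c (min (b p) (b q)), e (g p n - g q n) := by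
          rw [← fl _ ((min_le_left _ _).trans (hT p hp).1), sum_filter]
          refine sum_congr rfl fun n _ => ?_
          by_cases h1 : n ≤ b p <;> by_cases h2 : n ≤ b q <;> simp [h1, h2, e_mul_conj]
        rw [e]
        split_ifs with hpq
        · refine le_add_of_le_of_nonneg ((norm_sum_e_le _ _).trans ?_) (by positivity)
          have := (hT p hp).1
          rw [Nat.card_Ioc]
          exact_mod_cast (by omega : min (b p) (b q) - c ≤ N)
        · rw [zero_add]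
          by_contra hc
          obtain ⟨r, r1, r2, r3⟩ := hW _ _ _ N c _ R2 ((hT p hp).2.1.sub (hT q hq).2.1)
            ((min_le_left _ (b q)).trans (hT p hp).1) hN (not_le.1 hc).le
          obtain ⟨d, hd⟩ := Nat.dvd_factorial r1 (Nat.le_floor r2)
          refine h p hp q hq hpq ?_
          have := r3.nat_mul d
          rw [← mul_assoc, ← Nat.cast_mul, mul_comm d, ← hd] at this
          refine this.mono (mul_le_mul_of_nonneg_right ?_ (by positivity))
          exact_mod_cast Nat.le_of_dvd (Nat.factorial_pos _) (Dvd.intro_left _ hd.symm)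
      · rw [sum_add_distrib, sum_ite_eq, if_pos hp, sum_const, nsmul_eq_mul]) (by positivity)
  have h3 : ∑ n ∈ Ioc c (c + N), ‖f n‖ ^ 2 ≤ N :=
    (sum_le_card_nsmul _ _ 1 fun n _ => pow_le_one₀ (norm_nonneg _) (hf n)).trans (by simp)
  have h4 := card_nsmul_le_sum T _ ((ε * N) ^ 2) fun p hp => show (ε * N) ^ 2 ≤
      ‖∑ n ∈ Ioc c (c + N), f n * if n ≤ b p then e (g p n) else 0‖ ^ 2 by
    simp only [mul_ite, mul_zero, ← sum_filter, fl _ (hT p hp).1]
    exact pow_le_pow_left₀ (by positivity) (hT p hp).2.2 2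
  have h5 := h4.trans (h2.trans (mul_le_mul_of_nonneg_left h3 (by positivity)))
  rw [nsmul_eq_mul, div_div_eq_mul_div] at h5
  rw [le_div_iff₀ e2]
  refine le_of_mul_le_mul_right ?_ (pow_pos N0 2)
  nlinarith

/-- the primes of a dyadic block -/
def blk (P : ℕ) : Finset ℕ := (Ioc P (2 * P)).filter Nat.Prime

lemma blk_card : ∃ P0 : ℕ, ∀ P ≥ P0, (P : ℝ) / (4 * Real.log P) ≤ #(blk P) := by
  have h1 := Pool.Agent.Shared.PNTAP.theta_pnt
  obtain ⟨x0, h2⟩ := Filter.eventually_atTop.1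
    ((h1.eventually (lt_mem_nhds (show (7 / 8 : ℝ) < 1 by norm_num))).and
      (h1.eventually (gt_mem_nhds (show (1 : ℝ) < 9 / 8 by norm_num))))
  obtain ⟨n, hn⟩ := exists_nat_ge x0
  refine ⟨n + 2, fun P hP => ?_⟩
  have P2 : (n : ℝ) + 2 ≤ P := by exact_mod_cast hP
  have n0 : (0 : ℝ) ≤ n := n.cast_nonneg
  have P0 : (0 : ℝ) < P := by linarith
  have a1 := (h2 P (by linarith)).2
  have a2 := (h2 (2 * P : ℕ) (by push_cast; linarith)).1
  rw [div_lt_iff₀ P0] at a1
  rw [lt_div_iff₀ (by push_cast; linarith)] at a2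
  have a3 : Chebyshev.theta (2 * P : ℕ) = Chebyshev.theta P + ∑ p ∈ blk P, Real.log p := by
    simp only [Chebyshev.theta, Nat.floor_natCast, blk, sum_filter]
    exact (sum_Ioc_consecutive _ (Nat.zero_le P) (by omega)).symm
  have a4 : ∑ p ∈ blk P, Real.log p ≤ #(blk P) * (2 * Real.log P) := by
    rw [← nsmul_eq_mul]
    refine sum_le_card_nsmul _ _ _ fun p hp => ?_
    have := mem_Ioc.1 (mem_filter.1 hp).1
    have b1 : (P : ℝ) < p := by exact_mod_cast this.1
    have b2 : (p : ℝ) ≤ 2 * P := by exact_mod_cast this.2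
    rw [two_mul, ← Real.log_mul P0.ne' P0.ne']
    exact Real.log_le_log (by linarith) (by nlinarith)
  rw [div_le_iff₀ (mul_pos four_pos (Real.log_pos (by linarith)))]
  push_cast at a2 a3
  linarith

end Pool.Agent.Lib.MP_028aa5_nt
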