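import Pool.Agent.Lib.MP_028aa5_nt.Weyl

/-! Progressions, shifts and the Fejer kernel. -/

namespace Pool.Agent.Lib.MP_028aa5_nt

open Finset
open scoped ComplexConjugate

lemma sum_ap {V : Type*} [AddCommMonoid V] {D a : ℕ} (ha : a < D) (u v : ℕ) (f : ℝ → V) :
    ∑ n ∈ Ioc u v with n % D = a, f n =
      ∑ m ∈ Ioc ((u + (D - a)) / D) ((v + (D - a)) / D), f ((a - D : ℝ) + D * m) := by
  have D0 : 0 < D := by omega
  have key : ∀ n, n % D = a → n + (D - a) = (n / D + 1) * D := fun n h => by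
    have := Nat.div_add_mod n D
    rw [add_mul, mul_comm _ D]
    omega
  refine sum_bij' (fun n _ => n / D + 1) (fun m _ => a + D * (m - 1)) ?_ ?_ ?_ ?_ ?_
  · intro n hn
    simp only [mem_filter, mem_Ioc] at hn ⊢
    rw [Nat.div_lt_iff_lt_mul D0, Nat.le_div_iff_mul_le D0, ← key n hn.2]
    omega
  · intro m hm
    simp only [mem_filter, mem_Ioc] at hm ⊢
    rw [Nat.div_lt_iff_lt_mul D0, Nat.le_div_iff_mul_le D0] at hm
    obtain _ | m := m
    · omega
    rw [Nat.add_sub_cancel, Nat.add_mul_mod_self_left, Nat.mod_eq_of_lt ha, mul_comm D]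
    rw [add_mul] at hm
    omega
  · intro n hn
    have := Nat.div_add_mod n D
    rw [Nat.add_sub_cancel, ← (mem_filter.1 hn).2]
    omega
  · intro m hm
    rw [mem_Ioc, Nat.div_lt_iff_lt_mul D0] at hm
    obtain _ | m := m
    · omega
    rw [Nat.add_sub_cancel, Nat.add_mul_div_left _ _ D0, Nat.div_eq_of_lt ha, zero_add]
  · intro n hn
    have h := Nat.div_add_mod n D
    rw [(mem_filter.1 hn).2] at h
    have : (n : ℝ) = D * (n / D : ℕ) + a := by exact_mod_cast h.symm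
    congr 1
    push_cast
    linarith

lemma div_bounds {D : ℕ} (D0 : 0 < D) (x : ℕ) :
    (x : ℝ) / D - 1 < (x / D : ℕ) ∧ ((x / D : ℕ) : ℝ) ≤ x / D := by
  refine ⟨?_, Nat.cast_div_le⟩
  have D1 : (0 : ℝ) < D := by exact_mod_cast D0
  rw [sub_lt_iff_lt_add, div_lt_iff₀ D1]
  have := Nat.lt_mul_div_succ x D0
  rw [mul_comm] at this
  exact_mod_cast this

lemma card_ap {D a : ℕ} (ha : a < D) {u v : ℕ} (huv : u ≤ v) :
    |(#{n ∈ Ioc u v | n % D = a} : ℝ) - (v - u) / D| ≤ 1 := by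
  have D0 : 0 < D := by omega
  have h := sum_ap ha u v fun _ => (1 : ℕ)
  rw [← card_eq_sum_ones, ← card_eq_sum_ones, Nat.card_Ioc] at h
  rw [h, Nat.cast_sub (Nat.div_le_div_right (by omega))]
  have h1 := div_bounds D0 (u + (D - a))
  have h2 := div_bounds D0 (v + (D - a))
  rw [Nat.cast_add, add_div] at h1 h2
  rw [sub_div, abs_le]
  constructor <;> linarith [h1.1, h1.2, h2.1, h2.2]

lemma shift_le {V : Type*} [SeminormedAddCommGroup V] (G : ℕ → V) (hG : ∀ n, ‖G n‖ ≤ 1)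
    {u v : ℕ} (huv : u ≤ v) (t : ℕ) :
    ‖∑ n ∈ Ioc u v, G (n + t) - ∑ n ∈ Ioc u v, G n‖ ≤ 2 * t := by
  have h1 : ∑ n ∈ Ioc u v, G (n + t) = ∑ n ∈ Ioc (u + t) (v + t), G n := by
    rw [← map_add_right_Ioc, sum_map]; rfl
  have h2 := sum_Ioc_consecutive G (Nat.le_add_right u t) (Nat.add_le_add_right huv t)
  have h3 := sum_Ioc_consecutive G huv (Nat.le_add_right v t)
  have h4 : ∀ w, ‖∑ n ∈ Ioc w (w + t), G n‖ ≤ t := fun w =>
    (norm_sum_le _ _).trans ((sum_le_card_nsmul _ _ _ fun n _ => hG n).trans (by simp))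
  rw [h1, show ∑ n ∈ Ioc (u + t) (v + t), G n - ∑ n ∈ Ioc u v, G n =
    ∑ n ∈ Ioc v (v + t), G n - ∑ n ∈ Ioc u (u + t), G n by
      rw [sub_eq_sub_iff_add_eq_add, add_comm, h2, ← h3, add_comm]]
  linarith [norm_sub_le (∑ n ∈ Ioc v (v + t), G n) (∑ n ∈ Ioc u (u + t), G n), h4 u, h4 v]

/-- an almost periodic weight is equidistributed in classes to moduli prime to the period -/
lemma class_equi (F : ℕ → ℝ) (hF : ∀ n, |F n| ≤ 1) {u v D q : ℕ} (huv : u ≤ v) (hD : 0 < D)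
    (hc : D.Coprime q) {τ : ℝ} (h : ∀ j < D, ∀ n ∈ Ioc u v, |F (n + q * j) - F n| ≤ τ)
    (hτ : 0 ≤ τ) {a : ℕ} (ha : a < D) :
    |∑ n ∈ Ioc u v with n % D = a, F n - (∑ n ∈ Ioc u v, F n) / D| ≤ (v - u) * τ + 2 * (q * D) := by
  have D0 : (0 : ℝ) < D := by exact_mod_cast hD
  have key : ∀ b ∈ range D, |∑ n ∈ Ioc u v with n % D = a, F n -
      ∑ n ∈ Ioc u v with n % D = b, F n| ≤ (v - u) * τ + 2 * (q * D) := by
    intro b hb
    have hb := mem_range.1 hb
    obtain ⟨j, j1, j2⟩ := Nat.exists_mul_mod_eq_of_coprime (b + (D - a)) hc.symm hD.ne'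
    have e1 : ∀ n, (n + q * j) % D = b ↔ n % D = a := fun n => by
      have e2 : n + q * j + a ≡ n + b [MOD D] := by
        have : q * j + a ≡ b + (D - a) + a [MOD D] := Nat.ModEq.add_right _ j2
        rw [show b + (D - a) + a = b + D by omega] at this
        rw [add_assoc]
        exact Nat.ModEq.add_left _ (this.trans (by simp [Nat.ModEq]))
      rw [← Nat.mod_eq_of_lt hb, ← Nat.mod_eq_of_lt ha]
      constructor
      · intro e3
        have : b + a ≡ b + n [MOD D] :=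
          ((Nat.ModEq.add_right a e3).symm.trans e2).trans (by rw [add_comm])
        exact (Nat.ModEq.add_left_cancel' b this).symm
      · intro e3
        refine Nat.ModEq.add_right_cancel' a (e2.trans ?_)
        rw [add_comm b]
        exact Nat.ModEq.add_right b e3
    have h1 := shift_le (fun n => if n % D = b then F n else 0)
      (fun n => by split_ifs; exacts [hF n, by simp]) huv (q * j)
    simp only [e1, ← sum_filter, Real.norm_eq_abs] at h1
    have h2 : |∑ n ∈ Ioc u v with n % D = a, F n - ∑ n ∈ Ioc u v with n % D = a, F (n + q * j)|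
        ≤ (v - u) * τ := by
      rw [← sum_sub_distrib]
      refine (abs_sum_le_sum_abs _ _).trans ((sum_le_card_nsmul _ _ τ fun n hn => ?_).trans ?_)
      · rw [abs_sub_comm]; exact h j j1 n (mem_filter.1 hn).1
      · rw [nsmul_eq_mul, ← Nat.cast_sub huv, ← Nat.card_Ioc]
        exact mul_le_mul_of_nonneg_right (by exact_mod_cast card_filter_le _ _) hτ
    have h3 : ((q * j : ℕ) : ℝ) ≤ q * D := by exact_mod_cast Nat.mul_le_mul_left q j1.le
    linarith [abs_sub_le (∑ n ∈ Ioc u v with n % D = a, F n)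
      (∑ n ∈ Ioc u v with n % D = a, F (n + q * j)) (∑ n ∈ Ioc u v with n % D = b, F n)]
  rw [← sum_fiberwise_of_maps_to (s := Ioc u v) (t := range D) (g := fun n => n % D)
    (fun n _ => mem_range.2 (Nat.mod_lt _ hD)) F]
  have h4 := (abs_sum_le_sum_abs _ _).trans (sum_le_card_nsmul _ _ _ key)
  rw [sum_sub_distrib, sum_const, card_range, nsmul_eq_mul, nsmul_eq_mul] at h4
  rw [sub_div' D0.ne', abs_div, abs_of_pos D0, div_le_iff₀' D0, mul_comm _ (D : ℝ)]
  exact h4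

/-- a Fejer kernel -/
noncomputable def K (M : ℕ) (x : ℝ) : ℝ := ‖∑ h ∈ range M, e (h * x)‖ ^ 2 / M ^ 2

lemma K_nonneg (M : ℕ) (x : ℝ) : 0 ≤ K M x := by unfold K; positivity

lemma K_aux (M : ℕ) (x : ℝ) : ‖∑ h ∈ range M, e (h * x)‖ ≤ M := by
  simpa using norm_sum_e_le (range M) fun h => h * x

lemma K_le_one (M : ℕ) (x : ℝ) : K M x ≤ 1 :=
  div_le_one_of_le₀ (pow_le_pow_left₀ (norm_nonneg _) (K_aux M x) 2) (by positivity)

lemma K_aux2 (M : ℕ) {x y τ : ℝ} (h : Nr (x - y) τ) :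
    ‖∑ h ∈ range M, e (h * x) - ∑ h ∈ range M, e (h * y)‖ ≤ M * (7 * (M * τ)) := by
  rw [← sum_sub_distrib]
  refine (norm_sum_le _ _).trans ((sum_le_card_nsmul _ _ (7 * (M * τ)) fun j hj => ?_).trans
    (by simp))
  obtain ⟨m, hm⟩ := h.nat_mul j
  rw [← e_sub_int (j * x) m]
  refine (norm_e_sub_le _ _).trans (mul_le_mul_of_nonneg_left ?_ (by norm_num))
  rw [show j * x - m - j * y = j * (x - y) - m by ring]
  exact hm.trans (mul_le_mul_of_nonneg_right (by exact_mod_cast (mem_range.1 hj).le) h.nonneg)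

lemma K_lip {M : ℕ} (hM : 0 < M) {x y τ : ℝ} (h : Nr (x - y) τ) :
    |K M x - K M y| ≤ 14 * M * τ := by
  have M0 : (0 : ℝ) < M := by exact_mod_cast hM
  have h1 := (abs_norm_sub_norm_le _ _).trans (K_aux2 M h)
  unfold K
  rw [← sub_div, abs_div, abs_of_pos (pow_pos M0 2), div_le_iff₀ (pow_pos M0 2), sq_sub_sq, abs_mul,
    abs_of_nonneg (by positivity)]
  refine (mul_le_mul (add_le_add (K_aux M x) (K_aux M y)) h1 (abs_nonneg _) (by positivity)).trans
    (le_of_eq (by ring))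

lemma K_ge {M : ℕ} (hM : 0 < M) {x : ℝ} (h : Nr x (1 / (16 * M))) : 1 / 4 ≤ K M x := by
  have M0 : (0 : ℝ) < M := by exact_mod_cast hM
  have h1 := (abs_norm_sub_norm_le _ _).trans (K_aux2 M (y := 0) (by rwa [sub_zero]))
  simp only [mul_zero, e_zero, sum_const, card_range, nsmul_eq_mul, mul_one,
    Complex.norm_natCast] at h1
  rw [show (M : ℝ) * (1 / (16 * M)) = 1 / 16 by field_simp] at h1
  have h2 : (M : ℝ) / 2 ≤ ‖∑ h ∈ range M, e (h * x)‖ := by linarith [(abs_le.1 h1).1]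
  unfold K
  rw [le_div_iff₀ (pow_pos M0 2)]
  nlinarith

lemma fejer_sum {M : ℕ} (hM : 0 < M) (J : Finset ℕ) (φ : ℕ → ℝ) (θ : ℝ) {B : ℝ} (hB0 : 0 ≤ B)
    (hB : ∀ j : ℕ, 1 ≤ j → j < M → ‖∑ n ∈ J, e (j * φ n)‖ ≤ B) :
    |∑ n ∈ J, K M (φ n - θ) - #J / M| ≤ B := by
  have M0 : (0 : ℝ) < M := by exact_mod_cast hM
  have h1 : ∀ i < M, ∀ j < i, ‖∑ n ∈ J, e (i * (φ n - θ) - j * (φ n - θ))‖ ≤ B := by
    intro i hi j hj
    have : ∀ n, e (i * (φ n - θ) - j * (φ n - θ)) =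
        e (-((i - j) * θ)) * e (((i - j : ℕ) : ℝ) * φ n) := fun n => by
      rw [← e_add, Nat.cast_sub hj.le]; congr 1; ring
    simp only [this, ← mul_sum, norm_mul, norm_e, one_mul]
    exact hB _ (by omega) (by omega)
  have h2 : ∀ i ∈ range M, ∀ j ∈ range M, ‖∑ n ∈ J, e (i * (φ n - θ) - j * (φ n - θ)) -
      if i = j then (#J : ℂ) else 0‖ ≤ B := by
    intro i hi j hj
    rcases lt_trichotomy i j with h | h | h
    · rw [if_neg h.ne, sub_zero, ← Complex.norm_conj, map_sum]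
      simpa only [conj_e, neg_sub] using h1 j (mem_range.1 hj) i h
    · simpa [h] using hB0
    · rw [if_neg h.ne', sub_zero]
      exact h1 i (mem_range.1 hi) j h
  have h3 : (((∑ n ∈ J, K M (φ n - θ) - #J / M) * M ^ 2 : ℝ) : ℂ) =
      ∑ i ∈ range M, ∑ j ∈ range M, (∑ n ∈ J, e (i * (φ n - θ) - j * (φ n - θ)) -
        if i = j then (#J : ℂ) else 0) := by
    have e1 : (∑ n ∈ J, K M (φ n - θ) - #J / M) * M ^ 2 =
        ∑ n ∈ J, ‖∑ h ∈ range M, e (h * (φ n - θ))‖ ^ 2 - M * #J := by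
      unfold K
      rw [← sum_div]
      field_simp
    rw [e1]
    push_cast
    simp only [← Complex.mul_conj', map_sum, sum_mul_sum, e_mul_conj, sum_sub_distrib, sum_ite_eq]
    rw [sum_comm, sum_congr rfl fun i hi => if_pos hi, sum_const, card_range, nsmul_eq_mul]
    congr 1
    exact sum_congr rfl fun i _ => sum_comm
  have h4 := congrArg norm h3
  rw [Complex.norm_real, Real.norm_eq_abs, abs_mul, abs_of_pos (pow_pos M0 2)] at h4
  refine le_of_mul_le_mul_right (h4.le.trans ((norm_sum_le _ _).trans ?_)) (pow_pos M0 2)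
  refine (sum_le_card_nsmul _ _ (M * B) fun i hi => (norm_sum_le _ _).trans
    ((sum_le_card_nsmul _ _ _ (h2 i hi)).trans (by simp))).trans (le_of_eq ?_)
  rw [card_range, nsmul_eq_mul]
  ring

end Pool.Agent.Lib.MP_028aa5_nt
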